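import Mathlib

open MeasureTheory Filter Topology Complex
open scoped Real ComplexConjugate NNReal CompactlySupported

set_option linter.unusedSectionVars false

namespace Pool.Agent.Lib.Pdbc030

section Riesz

variable {X : Type*} [TopologicalSpace X] [CompactSpace X] [T2Space X]

/-- the values `‖L k‖` for `|k| ≤ g` -/
def valSet (L : C(X, ℂ) →L[ℂ] ℂ) (g : C_c(X, ℝ≥0)) : Set ℝ :=
  {t | ∃ k : C(X, ℂ), (∀ x, ‖k x‖ ≤ g x) ∧ t = ‖L k‖}

noncomputable def lam (L : C(X, ℂ) →L[ℂ] ℂ) (g : C_c(X, ℝ≥0)) : ℝ := sSup (valSet L g)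

lemma valSet_nonempty (L : C(X, ℂ) →L[ℂ] ℂ) (g : C_c(X, ℝ≥0)) : (valSet L g).Nonempty :=
  ⟨‖L 0‖, 0, fun x => by simp, rfl⟩

lemma valSet_bdd (L : C(X, ℂ) →L[ℂ] ℂ) (g : C_c(X, ℝ≥0)) : BddAbove (valSet L g) := by
  obtain ⟨C, hC⟩ := (isCompact_univ (X := X)).exists_bound_of_continuousOn
    (f := fun x => (g x : ℝ)) (by fun_prop)
  refine ⟨‖L‖ * (max C 0), ?_⟩
  rintro t ⟨k, hk, rfl⟩
  refine (L.le_opNorm k).trans ?_
  apply mul_le_mul_of_nonneg_left _ (norm_nonneg _)
  rw [ContinuousMap.norm_le _ (le_max_right _ _)]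
  intro x
  refine (hk x).trans ?_
  have := hC x (Set.mem_univ x)
  rw [Real.norm_eq_abs] at this
  exact (le_abs_self _).trans (this.trans (le_max_left _ _))

lemma le_lam (L : C(X, ℂ) →L[ℂ] ℂ) {g : C_c(X, ℝ≥0)} {k : C(X, ℂ)} (hk : ∀ x, ‖k x‖ ≤ g x) :
    ‖L k‖ ≤ lam L g := le_csSup (valSet_bdd L g) ⟨k, hk, rfl⟩

lemma lam_le (L : C(X, ℂ) →L[ℂ] ℂ) {g : C_c(X, ℝ≥0)} {B : ℝ}
    (h : ∀ k : C(X, ℂ), (∀ x, ‖k x‖ ≤ g x) → ‖L k‖ ≤ B) : lam L g ≤ B := by
  apply csSup_le (valSet_nonempty L g)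
  rintro t ⟨k, hk, rfl⟩
  exact h k hk

lemma lam_nonneg (L : C(X, ℂ) →L[ℂ] ℂ) (g : C_c(X, ℝ≥0)) : 0 ≤ lam L g :=
  (norm_nonneg (L 0)).trans (le_lam L (k := 0) (fun x => by simp))

/-- rotating the argument makes the value real nonnegative -/
lemma exists_rotate (L : C(X, ℂ) →L[ℂ] ℂ) (k : C(X, ℂ)) :
    ∃ k' : C(X, ℂ), (∀ x, ‖k' x‖ = ‖k x‖) ∧ L k' = ((‖L k‖ : ℝ) : ℂ) := by
  by_cases h : L k = 0
  · exact ⟨k, fun _ => rfl, by simp [h]⟩
  · have hn : (‖L k‖ : ℂ) ≠ 0 := by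
      have := norm_pos_iff.2 h
      exact_mod_cast this.ne'
    refine ⟨(conj (L k) / (‖L k‖ : ℂ)) • k, ?_, ?_⟩
    · intro x
      simp only [ContinuousMap.smul_apply, smul_eq_mul, norm_mul, norm_div, RCLike.norm_conj,
        Complex.norm_real, norm_norm]
      rw [div_self (norm_ne_zero_iff.2 h), one_mul]
    · rw [map_smul, smul_eq_mul, div_mul_eq_mul_div, mul_comm (conj (L k)), Complex.mul_conj,
        Complex.normSq_eq_norm_sq]
      push_cast
      field_simp

lemma lam_add (L : C(X, ℂ) →L[ℂ] ℂ) (g₁ g₂ : C_c(X, ℝ≥0)) :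
    lam L (g₁ + g₂) = lam L g₁ + lam L g₂ := by
  apply le_antisymm
  · apply lam_le
    intro k hk
    apply le_of_forall_pos_le_add
    intro ε hε
    set δ : ℝ := ε / (‖L‖ + 1) with hδ
    have hδpos : 0 < δ := by positivity
    have hd : ∀ x, (0:ℝ) < g₁ x + g₂ x + δ := fun x => by positivity
    have hdc : ∀ x, ((((g₁ x : ℝ) + g₂ x + δ : ℝ)) : ℂ) ≠ 0 := fun x => by
      exact_mod_cast (hd x).ne'
    have hc1 : Continuous (fun x => (g₁ x : ℝ)) := by fun_prop
    have hc2 : Continuous (fun x => (g₂ x : ℝ)) := by fun_prop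
    let k₁ : C(X, ℂ) := ⟨fun x => k x * ((((g₁ x : ℝ)) : ℂ) / (((g₁ x : ℝ) + g₂ x + δ : ℝ) : ℂ)), by
      apply Continuous.mul k.continuous
      apply Continuous.div _ _ hdc <;> fun_prop⟩
    let k₂ : C(X, ℂ) := ⟨fun x => k x * ((((g₂ x : ℝ)) : ℂ) / (((g₁ x : ℝ) + g₂ x + δ : ℝ) : ℂ)), by
      apply Continuous.mul k.continuous
      apply Continuous.div _ _ hdc <;> fun_prop⟩
    have hk' : ∀ x, ‖k x‖ ≤ (g₁ x : ℝ) + g₂ x := fun x => by
      have := hk x
      simpa using this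
    have hb1 : ∀ x, ‖k₁ x‖ ≤ g₁ x := fun x => by
      simp only [k₁, ContinuousMap.coe_mk, norm_mul, norm_div, Complex.norm_real,
        Real.norm_eq_abs]
      rw [abs_of_nonneg (NNReal.coe_nonneg (g₁ x)), abs_of_pos (hd x), mul_div_assoc', div_le_iff₀ (hd x), mul_comm]
      apply mul_le_mul_of_nonneg_left _ (NNReal.coe_nonneg (g₁ x))
      linarith [hk' x]
    have hb2 : ∀ x, ‖k₂ x‖ ≤ g₂ x := fun x => by
      simp only [k₂, ContinuousMap.coe_mk, norm_mul, norm_div, Complex.norm_real,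
        Real.norm_eq_abs]
      rw [abs_of_nonneg (NNReal.coe_nonneg (g₂ x)), abs_of_pos (hd x), mul_div_assoc', div_le_iff₀ (hd x), mul_comm]
      apply mul_le_mul_of_nonneg_left _ (NNReal.coe_nonneg (g₂ x))
      linarith [hk' x]
    have hb3 : ‖k - k₁ - k₂‖ ≤ δ := by
      rw [ContinuousMap.norm_le _ hδpos.le]
      intro x
      have e : (k - k₁ - k₂) x = k x * ((δ : ℂ) / (((g₁ x : ℝ) + g₂ x + δ : ℝ) : ℂ)) := by
        simp only [k₁, k₂, ContinuousMap.sub_apply, ContinuousMap.coe_mk]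
        have := hdc x
        field_simp
        push_cast
        ring
      rw [e, norm_mul, norm_div, Complex.norm_real, Complex.norm_real, Real.norm_eq_abs,
        Real.norm_eq_abs, abs_of_pos hδpos, abs_of_pos (hd x), mul_div_assoc', div_le_iff₀ (hd x),
        mul_comm]
      apply mul_le_mul_of_nonneg_left _ hδpos.le
      linarith [hk' x]
    have e : L k = L k₁ + L k₂ + L (k - k₁ - k₂) := by
      rw [← map_add, ← map_add]; congr 1; abel
    rw [e]
    refine (norm_add₃_le).trans ?_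
    have h1 := le_lam L hb1
    have h2 := le_lam L hb2
    have h3 : ‖L (k - k₁ - k₂)‖ ≤ ε := by
      refine (L.le_opNorm _).trans ?_
      calc ‖L‖ * ‖k - k₁ - k₂‖ ≤ ‖L‖ * δ := by gcongr
        _ ≤ (‖L‖ + 1) * δ := by nlinarith
        _ = ε := by rw [hδ]; field_simp
    linarith
  · rw [← le_sub_iff_add_le]
    apply lam_le
    intro k₁ hk₁
    rw [le_sub_iff_add_le, add_comm, ← le_sub_iff_add_le]
    apply lam_le
    intro k₂ hk₂
    rw [le_sub_iff_add_le, add_comm]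
    obtain ⟨k₁', h1, h1'⟩ := exists_rotate L k₁
    obtain ⟨k₂', h2, h2'⟩ := exists_rotate L k₂
    have h3 : ‖L (k₁' + k₂')‖ ≤ lam L (g₁ + g₂) := by
      apply le_lam
      intro x
      simp only [ContinuousMap.add_apply, CompactlySupportedContinuousMap.add_apply, NNReal.coe_add]
      refine (norm_add_le _ _).trans ?_
      rw [h1, h2]
      exact add_le_add (hk₁ x) (hk₂ x)
    rw [map_add, h1', h2', ← Complex.ofReal_add, Complex.norm_real, Real.norm_eq_abs,
      abs_of_nonneg (by positivity)] at h3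
    exact h3

lemma lam_smul (L : C(X, ℂ) →L[ℂ] ℂ) (c : ℝ≥0) (g : C_c(X, ℝ≥0)) :
    lam L (c • g) = c * lam L g := by
  rcases eq_or_ne c 0 with rfl | hc
  · simp only [zero_smul, NNReal.coe_zero, zero_mul]
    apply le_antisymm _ (lam_nonneg L _)
    apply lam_le
    intro k hk
    have : k = 0 := by
      ext x
      have := hk x
      simp only [CompactlySupportedContinuousMap.coe_zero, Pi.zero_apply, NNReal.coe_zero,
        norm_le_zero_iff] at this
      simpa using this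
    rw [this]; simp
  · have hc' : (0:ℝ) < c := by
      have := pos_iff_ne_zero.2 hc
      exact_mod_cast this
    apply le_antisymm
    · apply lam_le
      intro k hk
      have h1 : ‖L ((((c:ℝ)⁻¹ : ℝ) : ℂ) • k)‖ ≤ lam L g := by
        apply le_lam
        intro x
        have := hk x
        simp only [CompactlySupportedContinuousMap.smul_apply, smul_eq_mul, NNReal.coe_mul] at this
        simp only [ContinuousMap.smul_apply, smul_eq_mul, norm_mul, Complex.norm_real,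
          Real.norm_eq_abs, abs_of_pos (inv_pos.2 hc')]
        rw [inv_mul_le_iff₀ hc']; exact this
      rw [map_smul, norm_smul, Complex.norm_real, Real.norm_eq_abs, abs_of_pos (inv_pos.2 hc'),
        inv_mul_le_iff₀ hc'] at h1
      exact h1
    · rw [← le_div_iff₀' hc']
      apply lam_le
      intro k hk
      rw [le_div_iff₀' hc']
      have h1 : ‖L (((c:ℝ) : ℂ) • k)‖ ≤ lam L (c • g) := by
        apply le_lam
        intro x
        simp only [CompactlySupportedContinuousMap.smul_apply, smul_eq_mul, NNReal.coe_mul,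
          ContinuousMap.smul_apply, norm_mul, Complex.norm_real,
          Real.norm_eq_abs, abs_of_pos hc']
        exact mul_le_mul_of_nonneg_left (hk x) hc'.le
      rw [map_smul, norm_smul, Complex.norm_real, Real.norm_eq_abs, abs_of_pos hc'] at h1
      exact h1

/-- The positive linear functional `|L|`. -/
noncomputable def lamLin (L : C(X, ℂ) →L[ℂ] ℂ) : C_c(X, ℝ≥0) →ₗ[ℝ≥0] ℝ≥0 where
  toFun g := ⟨lam L g, lam_nonneg L g⟩
  map_add' g₁ g₂ := NNReal.eq (lam_add L g₁ g₂)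
  map_smul' c g := NNReal.eq (lam_smul L c g)

theorem exists_dominating_measure [MeasurableSpace X] [BorelSpace X] (L : C(X, ℂ) →L[ℂ] ℂ) :
    ∃ m : Measure X, IsFiniteMeasure m ∧ ∀ g : C(X, ℂ), ‖L g‖ ≤ ∫ x, ‖g x‖ ∂m := by
  refine ⟨NNRealRMK.rieszMeasure (lamLin L), ?_, ?_⟩
  · constructor
    exact isCompact_univ.measure_lt_top
  · intro g
    let g' : C_c(X, ℝ≥0) := ⟨⟨fun x => ‖g x‖₊, by fun_prop⟩, HasCompactSupport.of_compactSpace _⟩
    have h1 := NNRealRMK.integral_rieszMeasure (lamLin L) g'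
    have h2 : ‖L g‖ ≤ lam L g' := le_lam L (fun x => le_of_eq rfl)
    have h3 : ((lamLin L g' : ℝ≥0) : ℝ) = lam L g' := rfl
    rw [h3] at h1
    rw [← h1] at h2
    exact h2

end Riesz

end Pool.Agent.Lib.Pdbc030
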