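import Mathlib
import Pool.Agent.Lib.Pdbc030.Riesz

open MeasureTheory Filter Topology Complex
open scoped Real ComplexConjugate NNReal ENNReal

namespace Pool.Agent.Lib.Pdbc030

section Repr

variable {X : Type*} [TopologicalSpace X] [CompactSpace X] [T2Space X]
  [SecondCountableTopologyEither X ℂ]
  [MeasurableSpace X] [BorelSpace X]

lemma integral_norm_le_L2 (m : Measure X) [IsFiniteMeasure m] (g : C(X, ℂ)) :
    ∫ x, ‖g x‖ ∂m ≤ ‖ContinuousMap.toLp (E := ℂ) 2 m ℂ g‖ *
      ((m Set.univ) ^ ((1:ℝ) - 1 / 2)).toReal := by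
  have haes : AEStronglyMeasurable (fun x => g x) m := g.continuous.aestronglyMeasurable
  have h1 := eLpNorm_le_eLpNorm_mul_rpow_measure_univ (p := 1) (q := 2) (μ := m)
    (f := fun x => g x) (by norm_num) haes
  have h2 : eLpNorm (fun x => g x) 2 m = ENNReal.ofReal ‖ContinuousMap.toLp (E := ℂ) 2 m ℂ g‖ := by
    rw [Lp.norm_def, ENNReal.ofReal_toReal (Lp.eLpNorm_ne_top _)]
    exact eLpNorm_congr_ae (ContinuousMap.coeFn_toLp m g).symm
  have h3 : ENNReal.ofReal (∫ x, ‖g x‖ ∂m) = eLpNorm (fun x => g x) 1 m := by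
    rw [eLpNorm_one_eq_lintegral_enorm]
    rw [ofReal_integral_norm_eq_lintegral_enorm]
    exact (BoundedContinuousFunction.mkOfCompact g).integrable m
  rw [← h3, h2] at h1
  simp only [ENNReal.toReal_one, div_one, ENNReal.toReal_ofNat] at h1
  have hfin : (m Set.univ) ^ ((1:ℝ) - 1 / 2) ≠ ⊤ :=
    ENNReal.rpow_ne_top_of_nonneg (by norm_num) (measure_ne_top m _)
  rw [← ENNReal.ofReal_toReal hfin, ← ENNReal.ofReal_mul (norm_nonneg _)] at h1
  exact (ENNReal.ofReal_le_ofReal_iff (by positivity)).1 h1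

/-- Riesz representation of a bounded complex functional by a density. -/
theorem exists_repr (L : C(X, ℂ) →L[ℂ] ℂ) :
    ∃ (m : Measure X) (h : X → ℂ), IsFiniteMeasure m ∧ StronglyMeasurable h ∧ Integrable h m ∧
      ∀ g : C(X, ℂ), L g = ∫ x, g x * h x ∂m := by
  obtain ⟨m, hm, hL⟩ := exists_dominating_measure L
  set e : C(X, ℂ) →L[ℂ] Lp ℂ 2 m := ContinuousMap.toLp (E := ℂ) 2 m ℂ with he
  set K : ℝ := ((m Set.univ) ^ ((1:ℝ) - 1 / 2)).toReal with hK
  have hbound : ∀ g, ‖L g‖ ≤ K * ‖e g‖ := fun g => by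
    rw [mul_comm]; exact (hL g).trans (integral_norm_le_L2 m g)
  -- a linear section of `e` onto its range
  set eR := e.toLinearMap.rangeRestrict with heR
  obtain ⟨s, hs⟩ := eR.exists_rightInverse_of_surjective (LinearMap.range_rangeRestrict _)
  have hs' : ∀ v : LinearMap.range e.toLinearMap, e (s v) = v := by
    intro v
    have := congrArg (fun f => (f v : Lp ℂ 2 m)) hs
    exact this
  let f : StrongDual ℂ (LinearMap.range e.toLinearMap) :=
    LinearMap.mkContinuous (L.toLinearMap.comp s) K (fun v => by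
      have := hbound (s v)
      rw [hs' v] at this
      exact this)
  obtain ⟨G, hG, -⟩ := exists_extension_norm_eq (LinearMap.range e.toLinearMap) f
  have hGL : ∀ g, G (e g) = L g := by
    intro g
    have h1 := hG ⟨e g, LinearMap.mem_range_self e.toLinearMap g⟩
    have h2 : G (e g) = L (s ⟨e g, LinearMap.mem_range_self e.toLinearMap g⟩) := h1
    rw [h2, ← sub_eq_zero, ← map_sub, ← norm_le_zero_iff]
    refine (hbound _).trans ?_
    rw [map_sub, hs', sub_self, norm_zero, mul_zero]
  set H : Lp ℂ 2 m := (InnerProductSpace.toDual ℂ (Lp ℂ 2 m)).symm G with hH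
  have hHG : ∀ v, G v = inner ℂ H v := fun v => (InnerProductSpace.toDual_symm_apply).symm
  refine ⟨m, fun x => conj (H x), hm, ?_, ?_, ?_⟩
  · exact Complex.continuous_conj.comp_stronglyMeasurable (Lp.stronglyMeasurable H)
  · have h1 : Integrable H m := (Lp.memLp H).integrable (by norm_num)
    exact (LinearIsometryEquiv.integrable_comp_iff (Complex.conjLIE)).2 h1
  · intro g
    rw [← hGL, hHG, L2.inner_def]
    apply integral_congr_ae
    filter_upwards [ContinuousMap.coeFn_toLp (E := ℂ) (p := 2) (𝕜 := ℂ) m g] with x hx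
    rw [he, hx]
    simp [mul_comm]

end Repr

end Pool.Agent.Lib.Pdbc030
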