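import Mathlib

open MeasureTheory Filter Topology Complex
open scoped Real ComplexConjugate NNReal ENNReal

namespace Pool.Agent.Lib.Pdbc030

/-- unit vector in direction `θ` -/
noncomputable def ev (θ : ℝ) : ℂ := (Real.cos θ : ℂ) + (Real.sin θ : ℂ) * I

lemma ev_eq (θ : ℝ) : ev θ = circleMap 0 1 θ := by
  rw [ev, circleMap, Complex.exp_mul_I]
  simp

lemma norm_ev (θ : ℝ) : ‖ev θ‖ = 1 := by rw [ev_eq]; simp

lemma ev_ne_zero (θ : ℝ) : ev θ ≠ 0 := fun h => by have := norm_ev θ; rw [h] at this; simp at this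

lemma continuous_ev : Continuous ev := by unfold ev; fun_prop

lemma hasDerivAt_ev (θ : ℝ) : HasDerivAt ev (I * ev θ) θ := by
  have h := hasDerivAt_circleMap 0 1 θ
  have h1 : ev = circleMap 0 1 := funext ev_eq
  rw [h1]
  convert h using 1
  ring

/-- The operator `∂̄`. -/
noncomputable def dbar (φ : ℂ → ℂ) (w : ℂ) : ℂ :=
  (1 / 2 : ℂ) * (fderiv ℝ φ w 1 + I * fderiv ℝ φ w I)

lemma continuous_dbar {φ : ℂ → ℂ} (hφ : ContDiff ℝ 1 φ) : Continuous (dbar φ) := by
  have h2 : Continuous (fderiv ℝ φ) := hφ.continuous_fderiv (by norm_num)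
  unfold dbar
  exact continuous_const.mul ((h2.clm_apply continuous_const).add
    (continuous_const.mul (h2.clm_apply continuous_const)))

lemma dbar_eq_zero_of_notMem {φ : ℂ → ℂ} {w : ℂ} (h : w ∉ tsupport φ) : dbar φ w = 0 := by
  have h1 : w ∉ tsupport (fderiv ℝ φ) := fun h' => h (tsupport_fderiv_subset ℝ h')
  have h2 : fderiv ℝ φ w = 0 := image_eq_zero_of_notMem_tsupport h1
  simp [dbar, h2]

lemma norm_dbar_le (φ : ℂ → ℂ) (w : ℂ) : ‖dbar φ w‖ ≤ ‖fderiv ℝ φ w‖ := by
  unfold dbar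
  rw [norm_mul]
  have h1 : ‖fderiv ℝ φ w 1‖ ≤ ‖fderiv ℝ φ w‖ := by
    simpa using (fderiv ℝ φ w).le_opNorm 1
  have h2 : ‖I * fderiv ℝ φ w I‖ ≤ ‖fderiv ℝ φ w‖ := by
    rw [norm_mul, norm_I, one_mul]
    simpa using (fderiv ℝ φ w).le_opNorm I
  have h3 : ‖(1 / 2 : ℂ)‖ = 1 / 2 := by norm_num
  rw [h3]
  have := norm_add_le (fderiv ℝ φ w 1) (I * fderiv ℝ φ w I)
  linarith

/-! ### The Cauchy kernel is locally integrable -/

lemma lintegral_kernel (R : ℝ) (hR : 0 ≤ R) :
    ∫⁻ u in Metric.ball (0:ℂ) R, ENNReal.ofReal ‖u‖⁻¹ ≤ ENNReal.ofReal (2 * π * R) := by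
  rw [← lintegral_indicator Metric.isOpen_ball.measurableSet,
    ← Complex.lintegral_comp_polarCoord_symm]
  have h1 : ∀ p ∈ polarCoord.target, ENNReal.ofReal p.1 •
      (Metric.ball (0:ℂ) R).indicator (fun u => ENNReal.ofReal ‖u‖⁻¹) (Complex.polarCoord.symm p) ≤
      (Set.Ioo 0 R ×ˢ Set.Ioo (-π) π).indicator (fun _ => (1:ℝ≥0∞)) p := by
    intro p hp
    rw [polarCoord_target] at hp
    have hp1 : 0 < p.1 := hp.1
    by_cases hin : Complex.polarCoord.symm p ∈ Metric.ball (0:ℂ) R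
    · rw [Set.indicator_of_mem hin, Set.indicator_of_mem, Complex.norm_polarCoord_symm,
        abs_of_pos hp1, smul_eq_mul, ← ENNReal.ofReal_mul hp1.le, mul_inv_cancel₀ hp1.ne',
        ENNReal.ofReal_one]
      rw [mem_ball_zero_iff, Complex.norm_polarCoord_symm, abs_of_pos hp1] at hin
      exact ⟨⟨hp1, hin⟩, hp.2⟩
    · rw [Set.indicator_of_notMem hin, smul_zero]; exact zero_le
  have hm : MeasurableSet polarCoord.target := by
    rw [polarCoord_target]; exact measurableSet_Ioi.prod measurableSet_Ioo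
  refine (setLIntegral_mono' hm h1).trans ?_
  refine (setLIntegral_le_lintegral _ _).trans ?_
  rw [lintegral_indicator (measurableSet_Ioo.prod measurableSet_Ioo), setLIntegral_one,
    Measure.volume_eq_prod, Measure.prod_prod, Real.volume_Ioo, Real.volume_Ioo,
    ← ENNReal.ofReal_mul (by linarith)]
  apply ENNReal.ofReal_le_ofReal
  linarith

lemma lintegral_kernel' (z : ℂ) (R : ℝ) (hR : 0 ≤ R) :
    ∫⁻ w in Metric.ball z R, ENNReal.ofReal ‖z - w‖⁻¹ ≤ ENNReal.ofReal (2 * π * R) := by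
  refine le_trans (le_of_eq ?_) (lintegral_kernel R hR)
  rw [← lintegral_indicator Metric.isOpen_ball.measurableSet,
    ← lintegral_indicator Metric.isOpen_ball.measurableSet]
  rw [← lintegral_sub_right_eq_self
    ((Metric.ball (0:ℂ) R).indicator (fun u => ENNReal.ofReal ‖u‖⁻¹)) z]
  apply lintegral_congr
  intro w
  by_cases h : w ∈ Metric.ball z R
  · rw [Set.indicator_of_mem h, Set.indicator_of_mem]
    · rw [norm_sub_rev]
    · rw [mem_ball_zero_iff, ← dist_eq_norm]; exact h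
  · rw [Set.indicator_of_notMem h, Set.indicator_of_notMem]
    rw [mem_ball_zero_iff, ← dist_eq_norm]; exact h

/-- Uniform bound for the Cauchy potential of a bounded function of bounded support. -/
lemma lintegral_cauchy_le {F : ℂ → ℂ} {M R : ℝ} (hM : 0 ≤ M)
    (hF : ∀ w, ‖F w‖ ≤ M) (hF0 : ∀ w, R < ‖w‖ → F w = 0) (z : ℂ) :
    ∫⁻ w, ENNReal.ofReal (‖F w‖ * ‖z - w‖⁻¹) ≤
      ENNReal.ofReal (M * (2 * π)) + ENNReal.ofReal M * volume (Metric.closedBall (0:ℂ) R) := by
  have h1 : ∀ w, ENNReal.ofReal (‖F w‖ * ‖z - w‖⁻¹) ≤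
      (Metric.ball z 1).indicator (fun w => ENNReal.ofReal M * ENNReal.ofReal ‖z - w‖⁻¹) w +
      (Metric.closedBall (0:ℂ) R).indicator (fun _ => ENNReal.ofReal M) w := by
    intro w
    by_cases hw : w ∈ Metric.ball z 1
    · rw [Set.indicator_of_mem hw, ← ENNReal.ofReal_mul hM]
      refine le_trans ?_ (le_add_right le_rfl)
      apply ENNReal.ofReal_le_ofReal
      exact mul_le_mul_of_nonneg_right (hF w) (by positivity)
    · rw [Set.indicator_of_notMem hw, zero_add]
      by_cases hw2 : w ∈ Metric.closedBall (0:ℂ) R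
      · rw [Set.indicator_of_mem hw2]
        apply ENNReal.ofReal_le_ofReal
        have h3 : 1 ≤ ‖z - w‖ := by
          rw [Metric.mem_ball, not_lt, dist_comm, dist_eq_norm] at hw; exact hw
        have h4 : ‖z - w‖⁻¹ ≤ 1 := inv_le_one_of_one_le₀ h3
        calc ‖F w‖ * ‖z - w‖⁻¹ ≤ M * 1 := by
              apply mul_le_mul (hF w) h4 (by positivity) hM
          _ = M := mul_one _
      · rw [Set.indicator_of_notMem hw2]
        have : F w = 0 := hF0 w (by simpa using hw2)
        simp [this]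
  refine (lintegral_mono h1).trans ?_
  rw [lintegral_add_right _ (measurable_const.indicator Metric.isClosed_closedBall.measurableSet)]
  apply add_le_add
  · rw [lintegral_indicator Metric.isOpen_ball.measurableSet, lintegral_const_mul' _ _ (by simp),
      ENNReal.ofReal_mul hM]
    gcongr
    have := lintegral_kernel' z 1 zero_le_one
    rwa [mul_one] at this
  · rw [lintegral_indicator Metric.isClosed_closedBall.measurableSet, setLIntegral_const]

/-! ### The Cauchy–Pompeiu formula -/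

section CP

variable {φ : ℂ → ℂ} (hφ : ContDiff ℝ 1 φ)

include hφ in
lemma continuous_d1 {X : Type*} [TopologicalSpace X] {f g : X → ℂ} (hf : Continuous f)
    (hg : Continuous g) : Continuous (fun x => fderiv ℝ φ (f x) (g x)) := by
  have h2 : Continuous (fderiv ℝ φ) := hφ.continuous_fderiv (by norm_num)
  exact (h2.comp hf).clm_apply hg

lemma dbar_mul_conj (z : ℂ) (θ : ℝ) : dbar φ z * conj (ev θ) =
    (1 / 2 : ℂ) * (fderiv ℝ φ z (ev θ) + I * fderiv ℝ φ z (I * ev θ)) := by
  have e1 : ev θ = (Real.cos θ) • (1 : ℂ) + (Real.sin θ) • I := by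
    simp [ev]
  have e2 : I * ev θ = (-Real.sin θ) • (1 : ℂ) + (Real.cos θ) • I := by
    rw [ev]; simp only [Complex.real_smul]; push_cast
    linear_combination (Complex.sin θ) * I_sq
  have e3 : conj (ev θ) = (Real.cos θ : ℂ) - (Real.sin θ : ℂ) * I := by
    rw [ev]; simp only [map_add, map_mul, Complex.conj_ofReal, Complex.conj_I]; ring
  rw [e3, e2, e1]
  unfold dbar
  simp only [map_add, map_smul]
  simp only [Complex.real_smul]
  push_cast
  linear_combination (-(1 / 2 : ℂ) * (Complex.sin θ) * fderiv ℝ φ z I) * I_sq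

include hφ in
lemma hasDerivAt_radial (z : ℂ) (θ r : ℝ) :
    HasDerivAt (fun r : ℝ => φ (z + r * ev θ)) (fderiv ℝ φ (z + r * ev θ) (ev θ)) r := by
  have h1 : HasDerivAt (fun r : ℝ => z + (r : ℂ) * ev θ) (ev θ) r := by
    have := ((Complex.ofRealCLM.hasDerivAt (x := r)).mul_const (ev θ)).const_add z
    simpa using this
  have h2 := ((hφ.differentiable (by norm_num)) (z + (r : ℂ) * ev θ)).hasFDerivAt
  exact h2.comp_hasDerivAt r h1

include hφ in
lemma hasDerivAt_angular (z : ℂ) (θ r : ℝ) :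
    HasDerivAt (fun θ : ℝ => φ (z + r * ev θ)) (fderiv ℝ φ (z + r * ev θ) (r * (I * ev θ))) θ := by
  have h1 : HasDerivAt (fun θ : ℝ => z + (r : ℂ) * ev θ) (r * (I * ev θ)) θ :=
    ((hasDerivAt_ev θ).const_mul _).const_add z
  have h2 := ((hφ.differentiable (by norm_num)) (z + (r : ℂ) * ev θ)).hasFDerivAt
  exact h2.comp_hasDerivAt θ h1

include hφ in
lemma integral_angular (z : ℂ) {r : ℝ} (hr : r ≠ 0) :
    ∫ θ in (-π)..π, fderiv ℝ φ (z + r * ev θ) (I * ev θ) = 0 := by
  have hc := continuous_ev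
  have h1 : ∫ θ in (-π)..π, fderiv ℝ φ (z + r * ev θ) (r * (I * ev θ)) = 0 := by
    rw [intervalIntegral.integral_eq_sub_of_hasDerivAt (fun θ _ => hasDerivAt_angular hφ z θ r)]
    · have : ev π = ev (-π) := by simp [ev]
      rw [this, sub_self]
    · apply Continuous.intervalIntegrable
      exact continuous_d1 hφ (by fun_prop) (by fun_prop)
  have h2 : ∀ θ : ℝ, fderiv ℝ φ (z + r * ev θ) (r * (I * ev θ)) =
      (r : ℂ) * fderiv ℝ φ (z + r * ev θ) (I * ev θ) := by
    intro θ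
    have e1 : ((r : ℂ) * (I * ev θ)) = r • (I * ev θ) := by rw [Complex.real_smul]
    rw [e1, map_smul, Complex.real_smul]
  simp_rw [h2] at h1
  rw [intervalIntegral.integral_const_mul] at h1
  rcases mul_eq_zero.1 h1 with h | h
  · exact absurd (by exact_mod_cast h) hr
  · exact h

include hφ in
theorem cauchy_pompeiu (hs : HasCompactSupport φ) (z : ℂ) :
    ∫ w, dbar φ w / (z - w) = π * φ z := by
  have hev := continuous_ev
  obtain ⟨R, hR0, hR⟩ : ∃ R : ℝ, 0 < R ∧ ∀ r : ℝ, R ≤ |r| → ∀ θ, z + r * ev θ ∉ tsupport φ := by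
    obtain ⟨R, hR⟩ := hs.isBounded.subset_closedBall z
    refine ⟨max 1 (R + 1), lt_of_lt_of_le one_pos (le_max_left _ _), fun r hr θ hz2 => ?_⟩
    have h1 := hR hz2
    rw [Metric.mem_closedBall, dist_eq_norm, add_sub_cancel_left, norm_mul, norm_ev, mul_one,
      Complex.norm_real, Real.norm_eq_abs] at h1
    have h2 := le_max_right 1 (R + 1)
    linarith
  rw [← integral_add_left_eq_self (μ := volume) (fun w => dbar φ w / (z - w)) z]
  rw [← Complex.integral_comp_polarCoord_symm]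
  set T1 : ℝ × ℝ → ℂ := fun p => fderiv ℝ φ (z + p.1 * ev p.2) (ev p.2) with hT1
  set T2 : ℝ × ℝ → ℂ := fun p => fderiv ℝ φ (z + p.1 * ev p.2) (I * ev p.2) with hT2
  have hkey : ∀ p : ℝ × ℝ, p ∈ polarCoord.target → p.1 • (dbar φ (z + Complex.polarCoord.symm p) /
      (z - (z + Complex.polarCoord.symm p))) =
      Set.indicator (Set.Icc 0 R ×ˢ Set.univ) (fun p => (-(1/2 : ℂ)) * (T1 p + I * T2 p)) p := by
    intro p hp
    rw [polarCoord_target] at hp
    have hp1 : 0 < p.1 := hp.1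
    have hp0 : (p.1 : ℂ) ≠ 0 := by exact_mod_cast hp1.ne'
    have h1 : Complex.polarCoord.symm p = (p.1 : ℂ) * ev p.2 := by
      rw [Complex.polarCoord_symm_apply, ev]
    rw [h1]
    have h3 : p.1 • (dbar φ (z + p.1 * ev p.2) / (z - (z + p.1 * ev p.2))) =
        - (dbar φ (z + p.1 * ev p.2) * conj (ev p.2)) := by
      have he := ev_ne_zero p.2
      have h4 : ev p.2 * conj (ev p.2) = 1 := by
        rw [Complex.mul_conj, Complex.normSq_eq_norm_sq, norm_ev]; simp
      have h5 : conj (ev p.2) = (ev p.2)⁻¹ := eq_inv_of_mul_eq_one_right h4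
      rw [h5, Complex.real_smul]
      field_simp
      ring
    rw [h3]
    by_cases hin : p ∈ Set.Icc 0 R ×ˢ (Set.univ : Set ℝ)
    · rw [Set.indicator_of_mem hin, dbar_mul_conj]
      simp only [hT1, hT2]; ring
    · rw [Set.indicator_of_notMem hin]
      have hRp : R ≤ p.1 := by
        by_contra h5
        push Not at h5
        exact hin ⟨⟨hp1.le, h5.le⟩, Set.mem_univ _⟩
      rw [dbar_eq_zero_of_notMem (hR p.1 (by rw [abs_of_pos hp1]; exact hRp) p.2)]
      simp
  have hset : MeasurableSet polarCoord.target := by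
    rw [polarCoord_target]; exact measurableSet_Ioi.prod measurableSet_Ioo
  rw [setIntegral_congr_fun hset (fun p hp => hkey p hp)]
  rw [setIntegral_indicator (measurableSet_Icc.prod MeasurableSet.univ)]
  have hinter : polarCoord.target ∩ Set.Icc 0 R ×ˢ Set.univ = Set.Ioc 0 R ×ˢ Set.Ioo (-π) π := by
    rw [polarCoord_target]
    ext p
    simp only [Set.mem_inter_iff, Set.mem_prod, Set.mem_Ioi, Set.mem_Ioo, Set.mem_Icc,
      Set.mem_univ, and_true, Set.mem_Ioc]
    constructor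
    · rintro ⟨⟨h0, h⟩, h2⟩; exact ⟨⟨h0, h2.2⟩, h⟩
    · rintro ⟨h2, h⟩; exact ⟨⟨h2.1, h⟩, ⟨h2.1.le, h2.2⟩⟩
  rw [hinter]
  have hT1c : Continuous T1 := continuous_d1 hφ (by fun_prop) (by fun_prop)
  have hT2c : Continuous T2 := continuous_d1 hφ (by fun_prop) (by fun_prop)
  have hcomp : IsCompact (Set.Icc 0 R ×ˢ Set.Icc (-π) π) := isCompact_Icc.prod isCompact_Icc
  have hsub : Set.Ioc 0 R ×ˢ Set.Ioo (-π) π ⊆ Set.Icc 0 R ×ˢ Set.Icc (-π) π :=
    Set.prod_mono Set.Ioc_subset_Icc_self Set.Ioo_subset_Icc_self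
  have hT1i : IntegrableOn T1 (Set.Ioc 0 R ×ˢ Set.Ioo (-π) π) :=
    (hT1c.continuousOn.integrableOn_compact hcomp).mono_set hsub
  have hT2i : IntegrableOn T2 (Set.Ioc 0 R ×ˢ Set.Ioo (-π) π) :=
    (hT2c.continuousOn.integrableOn_compact hcomp).mono_set hsub
  rw [integral_const_mul, integral_add hT1i (hT2i.const_mul I), integral_const_mul]
  have hπ : -π ≤ π := by linarith [Real.pi_pos]
  have hz2 : ∫ p in Set.Ioc 0 R ×ˢ Set.Ioo (-π) π, T2 p = 0 := by
    rw [Measure.volume_eq_prod] at hT2i ⊢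
    rw [setIntegral_prod _ hT2i]
    rw [setIntegral_congr_fun measurableSet_Ioc (g := fun _ => (0:ℂ))]
    · simp
    · intro r hr
      simp only [hT2]
      rw [← integral_Ioc_eq_integral_Ioo, ← intervalIntegral.integral_of_le hπ]
      exact integral_angular hφ z hr.1.ne'
  have hz1 : ∫ p in Set.Ioc 0 R ×ˢ Set.Ioo (-π) π, T1 p = -(2 * π * φ z) := by
    rw [Measure.volume_eq_prod] at hT1i ⊢
    rw [setIntegral_prod _ hT1i]
    have hsw : ∫ r in Set.Ioc 0 R, ∫ θ in Set.Ioo (-π) π, T1 (r, θ) =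
        ∫ θ in Set.Ioo (-π) π, ∫ r in Set.Ioc 0 R, T1 (r, θ) := by
      apply integral_integral_swap
      rw [IntegrableOn, ← Measure.prod_restrict] at hT1i
      exact hT1i
    rw [hsw]
    have hin : ∀ θ : ℝ, ∫ r in Set.Ioc 0 R, T1 (r, θ) = - φ z := by
      intro θ
      rw [← intervalIntegral.integral_of_le hR0.le]
      simp only [hT1]
      rw [intervalIntegral.integral_eq_sub_of_hasDerivAt
        (fun r _ => hasDerivAt_radial hφ z θ r)]
      · have h6 : φ (z + R * ev θ) = 0 :=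
          image_eq_zero_of_notMem_tsupport (hR R (by rw [abs_of_pos hR0]) θ)
        rw [h6]; simp
      · apply Continuous.intervalIntegrable
        exact continuous_d1 hφ (by fun_prop) (by fun_prop)
    simp_rw [hin]
    rw [setIntegral_const]
    simp only [Measure.real, Real.volume_Ioo, Complex.real_smul]
    rw [ENNReal.toReal_ofReal (by linarith [Real.pi_pos])]
    push_cast; ring
  rw [hz1, hz2]
  ring

end CP

end Pool.Agent.Lib.Pdbc030
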