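import Mathlib

open MeasureTheory Filter Topology Complex
open scoped Real ComplexConjugate NNReal ENNReal

namespace Pool.Agent.Lib.Pdbc030

/-- A smooth bump with integer translates summing to one. -/
noncomputable def th (x : ℝ) : ℝ := Real.smoothTransition (x + 1) - Real.smoothTransition x

lemma contDiff_th {n : WithTop ℕ∞} (hn : n ≤ ((⊤ : ℕ∞) : WithTop ℕ∞)) : ContDiff ℝ n th := by
  unfold th
  have h : ContDiff ℝ ((⊤ : ℕ∞) : WithTop ℕ∞) Real.smoothTransition := Real.smoothTransition.contDiff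
  exact ((h.of_le hn).comp (contDiff_id.add contDiff_const)).sub (h.of_le hn)

lemma abs_th_le (x : ℝ) : |th x| ≤ 1 := by
  unfold th
  have h1 := Real.smoothTransition.nonneg (x + 1)
  have h2 := Real.smoothTransition.le_one (x + 1)
  have h3 := Real.smoothTransition.nonneg x
  have h4 := Real.smoothTransition.le_one x
  rw [abs_le]; constructor <;> linarith

lemma th_eq_zero {x : ℝ} (hx : 1 ≤ |x|) : th x = 0 := by
  unfold th
  rcases le_abs.1 hx with h | h
  · rw [Real.smoothTransition.one_of_one_le (by linarith),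
      Real.smoothTransition.one_of_one_le h, sub_self]
  · rw [Real.smoothTransition.zero_of_nonpos (by linarith),
      Real.smoothTransition.zero_of_nonpos (by linarith), sub_self]

lemma sum_th (N : ℕ) (x : ℝ) : ∑ a ∈ Finset.Icc (-(N : ℤ)) N, th (x - a) =
    Real.smoothTransition (x + N + 1) - Real.smoothTransition (x - N) := by
  induction N with
  | zero => simp [th]
  | succ n ih =>
    have h1 : Finset.Icc (-((n + 1 : ℕ) : ℤ)) ((n + 1 : ℕ) : ℤ) =
        insert (-((n + 1 : ℕ) : ℤ)) (insert (((n + 1 : ℕ) : ℤ)) (Finset.Icc (-(n : ℤ)) n)) := by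
      ext a
      simp only [Finset.mem_Icc, Finset.mem_insert]
      push_cast
      omega
    rw [h1, Finset.sum_insert, Finset.sum_insert, ih]
    · unfold th
      push_cast
      have e1 : x - (-((n : ℝ) + 1)) + 1 = x + (n + 1) + 1 := by ring
      have e2 : x - (-((n : ℝ) + 1)) = x + n + 1 := by ring
      have e3 : x - ((n : ℝ) + 1) + 1 = x - n := by ring
      have e4 : x - (-1 + -(n : ℝ)) + 1 = x + (n + 1) + 1 := by ring
      rw [e1, e2, e3]
      ring
    · simp only [Finset.mem_Icc]; push_cast; omega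
    · simp only [Finset.mem_insert, Finset.mem_Icc]; push_cast; omega

lemma sum_th_eq_one {N : ℕ} {x : ℝ} (hx : |x| ≤ N) :
    ∑ a ∈ Finset.Icc (-(N : ℤ)) N, th (x - a) = 1 := by
  rw [sum_th]
  have h := abs_le.1 hx
  rw [Real.smoothTransition.one_of_one_le (by linarith),
    Real.smoothTransition.zero_of_nonpos (by linarith), sub_zero]

lemma exists_deriv_bound : ∃ C : ℝ, 0 ≤ C ∧ ∀ x, |deriv th x| ≤ C := by
  have hc : ContDiff ℝ 1 th := contDiff_th (by
    change ((1 : ℕ∞) : WithTop ℕ∞) ≤ _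
    exact WithTop.coe_le_coe.2 le_top)
  have h1 : Continuous (deriv th) := hc.continuous_deriv (by norm_num)
  have h2 : HasCompactSupport (deriv th) := by
    apply HasCompactSupport.deriv
    apply HasCompactSupport.intro (K := Set.Icc (-1) 1) isCompact_Icc
    intro x hx
    apply th_eq_zero
    rw [le_abs]
    by_contra hcon
    push Not at hcon
    exact hx ⟨by linarith [hcon.2], hcon.1.le⟩
  obtain ⟨C, hC⟩ := h1.bounded_above_of_compact_support h2
  exact ⟨C, (norm_nonneg _).trans (hC 0), fun x => hC x⟩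

/-- cut-off function of the cell `i` at scale `δ` -/
noncomputable def psi (δ : ℝ) (i : ℤ × ℤ) (z : ℂ) : ℂ :=
  ((th (z.re / δ - i.1) * th (z.im / δ - i.2) : ℝ) : ℂ)

/-- the closed cell containing the support of `psi δ i` -/
def cell (δ : ℝ) (i : ℤ × ℤ) : Set ℂ := {z | |z.re / δ - i.1| ≤ 1 ∧ |z.im / δ - i.2| ≤ 1}

lemma isClosed_cell (δ : ℝ) (i : ℤ × ℤ) : IsClosed (cell δ i) := by
  have h1 : Continuous (fun z : ℂ => |z.re / δ - i.1|) := by
    have := Complex.continuous_re
    exact ((this.div_const δ).sub continuous_const).abs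
  have h2 : Continuous (fun z : ℂ => |z.im / δ - i.2|) := by
    have := Complex.continuous_im
    exact ((this.div_const δ).sub continuous_const).abs
  exact (isClosed_le h1 continuous_const).inter (isClosed_le h2 continuous_const)

lemma psi_eq_zero {δ : ℝ} {i : ℤ × ℤ} {z : ℂ} (hz : z ∉ cell δ i) : psi δ i z = 0 := by
  unfold psi
  by_cases h : 1 ≤ |z.re / δ - i.1|
  · rw [th_eq_zero h]; simp
  · have h2 : 1 ≤ |z.im / δ - i.2| := by
      by_contra h3
      push Not at h h3
      exact hz ⟨h.le, h3.le⟩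
    rw [th_eq_zero h2]; simp

lemma tsupport_psi (δ : ℝ) (i : ℤ × ℤ) : tsupport (psi δ i) ⊆ cell δ i := by
  apply closure_minimal _ (isClosed_cell δ i)
  intro z hz
  by_contra h
  exact hz (psi_eq_zero h)

lemma dist_of_mem_cell {δ : ℝ} (hδ : 0 < δ) {i : ℤ × ℤ} {z w : ℂ} (hz : z ∈ cell δ i)
    (hw : w ∈ cell δ i) : ‖w - z‖ ≤ 4 * δ := by
  have h1 : |(w - z).re| ≤ 2 * δ := by
    have ha := abs_le.1 hz.1
    have hb := abs_le.1 hw.1
    have e : (w - z).re = (w.re / δ - z.re / δ) * δ := by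
      rw [sub_re]; field_simp
    rw [e, abs_mul, abs_of_pos hδ]
    apply mul_le_mul_of_nonneg_right _ hδ.le
    rw [abs_le]; constructor <;> linarith
  have h2 : |(w - z).im| ≤ 2 * δ := by
    have ha := abs_le.1 hz.2
    have hb := abs_le.1 hw.2
    have e : (w - z).im = (w.im / δ - z.im / δ) * δ := by
      rw [sub_im]; field_simp
    rw [e, abs_mul, abs_of_pos hδ]
    apply mul_le_mul_of_nonneg_right _ hδ.le
    rw [abs_le]; constructor <;> linarith
  have := Complex.norm_le_abs_re_add_abs_im (w - z)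
  linarith

lemma contDiff_psi {n : WithTop ℕ∞} (hn : n ≤ ((⊤ : ℕ∞) : WithTop ℕ∞)) (δ : ℝ) (i : ℤ × ℤ) :
    ContDiff ℝ n (psi δ i) := by
  unfold psi
  have hth := contDiff_th hn
  have h1 : ContDiff ℝ n (fun z : ℂ => z.re / δ - i.1) :=
    (Complex.reCLM.contDiff.div_const δ).sub contDiff_const
  have h2 : ContDiff ℝ n (fun z : ℂ => z.im / δ - i.2) :=
    (Complex.imCLM.contDiff.div_const δ).sub contDiff_const
  exact Complex.ofRealCLM.contDiff.comp ((hth.comp h1).mul (hth.comp h2))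

lemma norm_psi_le (δ : ℝ) (i : ℤ × ℤ) (z : ℂ) : ‖psi δ i z‖ ≤ 1 := by
  unfold psi
  rw [Complex.norm_real, Real.norm_eq_abs, abs_mul]
  have h1 := abs_th_le (z.re / δ - i.1)
  have h2 := abs_th_le (z.im / δ - i.2)
  calc |th (z.re / δ - i.1)| * |th (z.im / δ - i.2)| ≤ 1 * 1 := by gcongr
    _ = 1 := one_mul 1

lemma norm_fderiv_psi_le {C : ℝ} (hC : ∀ x, |deriv th x| ≤ C) {δ : ℝ} (hδ : 0 < δ)
    (i : ℤ × ℤ) (z : ℂ) : ‖fderiv ℝ (psi δ i) z‖ ≤ 2 * C / δ := by
  have hC0 : 0 ≤ C := (abs_nonneg _).trans (hC 0)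
  have hcd : ContDiff ℝ 1 th := contDiff_th (by
    change ((1 : ℕ∞) : WithTop ℕ∞) ≤ _
    exact WithTop.coe_le_coe.2 le_top)
  have hd : ∀ x, HasDerivAt th (deriv th x) x := fun x =>
    ((hcd.differentiable (by norm_num)) x).hasDerivAt
  have h1 : HasFDerivAt (fun z : ℂ => z.re / δ - i.1) ((1 / δ) • Complex.reCLM) z := by
    have h := (Complex.reCLM.hasFDerivAt (x := z)).const_mul (1 / δ)
    refine (h.sub_const (i.1 : ℝ)).congr_of_eventuallyEq (Eventually.of_forall (fun w => ?_))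
    simp only [Complex.reCLM_apply]; ring
  have h2 : HasFDerivAt (fun z : ℂ => z.im / δ - i.2) ((1 / δ) • Complex.imCLM) z := by
    have h := (Complex.imCLM.hasFDerivAt (x := z)).const_mul (1 / δ)
    refine (h.sub_const (i.2 : ℝ)).congr_of_eventuallyEq (Eventually.of_forall (fun w => ?_))
    simp only [Complex.imCLM_apply]; ring
  have h3 := (hd (z.re / δ - i.1)).comp_hasFDerivAt z h1
  have h4 := (hd (z.im / δ - i.2)).comp_hasFDerivAt z h2
  have h5 := h3.mul h4
  have h6 := (Complex.ofRealCLM.hasFDerivAt (x := th (z.re / δ - i.1) * th (z.im / δ - i.2))).comp z h5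
  have h7 : HasFDerivAt (psi δ i) _ z := h6
  rw [h7.fderiv]
  refine (ContinuousLinearMap.opNorm_comp_le _ _).trans ?_
  have hO : ‖Complex.ofRealCLM‖ = 1 := Complex.ofRealCLM_norm
  rw [hO, one_mul]
  refine (norm_add_le _ _).trans ?_
  simp only [Function.comp]
  have hre : ‖(1 / δ) • Complex.reCLM‖ ≤ 1 / δ := by
    rw [norm_smul, Complex.reCLM_norm, mul_one, Real.norm_eq_abs, abs_of_pos (by positivity)]
  have him : ‖(1 / δ) • Complex.imCLM‖ ≤ 1 / δ := by
    rw [norm_smul, Complex.imCLM_norm, mul_one, Real.norm_eq_abs, abs_of_pos (by positivity)]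
  have e1 : ‖th (z.re / δ - i.1) • deriv th (z.im / δ - i.2) • (1 / δ) • Complex.imCLM‖ ≤ C / δ := by
    rw [norm_smul, norm_smul, Real.norm_eq_abs, Real.norm_eq_abs]
    calc |th (z.re / δ - i.1)| * (|deriv th (z.im / δ - i.2)| * ‖(1 / δ) • Complex.imCLM‖) ≤
        1 * (C * (1 / δ)) := by
          gcongr
          · exact abs_th_le _
          · exact hC _
      _ = C / δ := by ring
  have e2 : ‖th (z.im / δ - i.2) • deriv th (z.re / δ - i.1) • (1 / δ) • Complex.reCLM‖ ≤ C / δ := by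
    rw [norm_smul, norm_smul, Real.norm_eq_abs, Real.norm_eq_abs]
    calc |th (z.im / δ - i.2)| * (|deriv th (z.re / δ - i.1)| * ‖(1 / δ) • Complex.reCLM‖) ≤
        1 * (C * (1 / δ)) := by
          gcongr
          · exact abs_th_le _
          · exact hC _
      _ = C / δ := by ring
  calc _ ≤ C / δ + C / δ := add_le_add e1 e2
    _ = 2 * C / δ := by ring

/-- index box -/
noncomputable def box (N : ℕ) : Finset (ℤ × ℤ) := Finset.Icc (-(N : ℤ)) N ×ˢ Finset.Icc (-(N : ℤ)) N

lemma sum_psi_eq_one {δ : ℝ} {N : ℕ} {z : ℂ} (h1 : |z.re / δ| ≤ N) (h2 : |z.im / δ| ≤ N) :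
    ∑ i ∈ box N, psi δ i z = 1 := by
  unfold box psi
  rw [Finset.sum_product]
  have h3 : ∀ a ∈ Finset.Icc (-(N : ℤ)) N, ∑ b ∈ Finset.Icc (-(N : ℤ)) N,
      ((th (z.re / δ - (a, b).1) * th (z.im / δ - (a, b).2) : ℝ) : ℂ) =
      ((th (z.re / δ - a) : ℝ) : ℂ) := by
    intro a _
    simp only
    rw [← Complex.ofReal_sum, ← Finset.mul_sum, sum_th_eq_one h2, mul_one]
  rw [Finset.sum_congr rfl h3, ← Complex.ofReal_sum, sum_th_eq_one h1]
  simp

open Classical in
/-- bounded overlap of the cells -/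
lemma card_cell_le (δ : ℝ) (z : ℂ) (t : Finset (ℤ × ℤ)) :
    (t.filter (fun i => z ∈ cell δ i)).card ≤ 9 := by
  have h1 : t.filter (fun i => z ∈ cell δ i) ⊆
      (Finset.Icc (⌈z.re / δ⌉ - 1) (⌈z.re / δ⌉ + 1)) ×ˢ
      (Finset.Icc (⌈z.im / δ⌉ - 1) (⌈z.im / δ⌉ + 1)) := by
    intro i hi
    rw [Finset.mem_filter] at hi
    have ha := abs_le.1 hi.2.1
    have hb := abs_le.1 hi.2.2
    have hc1 := Int.le_ceil (z.re / δ)
    have hc2 := Int.ceil_lt_add_one (z.re / δ)
    have hd1 := Int.le_ceil (z.im / δ)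
    have hd2 := Int.ceil_lt_add_one (z.im / δ)
    rw [Finset.mem_product, Finset.mem_Icc, Finset.mem_Icc]
    refine ⟨⟨?_, ?_⟩, ?_, ?_⟩
    · have : ((⌈z.re / δ⌉ : ℤ) : ℝ) < i.1 + 2 := by linarith
      have : (⌈z.re / δ⌉ : ℤ) < i.1 + 2 := by exact_mod_cast this
      omega
    · have : ((i.1 : ℤ) : ℝ) ≤ ⌈z.re / δ⌉ + 1 := by linarith
      exact_mod_cast this
    · have : ((⌈z.im / δ⌉ : ℤ) : ℝ) < i.2 + 2 := by linarith
      have : (⌈z.im / δ⌉ : ℤ) < i.2 + 2 := by exact_mod_cast this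
      omega
    · have : ((i.2 : ℤ) : ℝ) ≤ ⌈z.im / δ⌉ + 1 := by linarith
      exact_mod_cast this
  refine (Finset.card_le_card h1).trans ?_
  rw [Finset.card_product]
  simp only [Int.card_Icc]
  have e1 : (⌈z.re / δ⌉ + 1 + 1 - (⌈z.re / δ⌉ - 1)).toNat = 3 := by
    have : ⌈z.re / δ⌉ + 1 + 1 - (⌈z.re / δ⌉ - 1) = 3 := by ring
    rw [this]; rfl
  have e2 : (⌈z.im / δ⌉ + 1 + 1 - (⌈z.im / δ⌉ - 1)).toNat = 3 := by
    have : ⌈z.im / δ⌉ + 1 + 1 - (⌈z.im / δ⌉ - 1) = 3 := by ring
    rw [this]; rfl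
  rw [e1, e2]

open Classical in
/-- sums of masses of cells -/
lemma sum_measure_cell_le (κ : Measure ℂ) [IsFiniteMeasure κ] (δ : ℝ) (t : Finset (ℤ × ℤ))
    {W : Set ℂ} (hW : MeasurableSet W) (ht : ∀ i ∈ t, cell δ i ⊆ W) :
    ∑ i ∈ t, (κ (cell δ i)).toReal ≤ 9 * (κ W).toReal := by
  have h1 : ∀ i ∈ t, (κ (cell δ i)).toReal =
      ∫ z in W, (cell δ i).indicator (fun _ => (1:ℝ)) z ∂κ := by
    intro i hi
    rw [integral_indicator_const _ (isClosed_cell δ i).measurableSet]
    simp only [Measure.real, smul_eq_mul, mul_one]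
    rw [Measure.restrict_apply (isClosed_cell δ i).measurableSet,
      Set.inter_eq_self_of_subset_left (ht i hi)]
  rw [Finset.sum_congr rfl h1, ← integral_finsetSum]
  · have h2 : ∀ z, ∑ i ∈ t, (cell δ i).indicator (fun _ => (1:ℝ)) z ≤ 9 := by
      intro z
      have h3 : ∑ i ∈ t, (cell δ i).indicator (fun _ => (1:ℝ)) z =
          ((t.filter (fun i => z ∈ cell δ i)).card : ℝ) := by
        rw [Finset.card_filter]
        push_cast
        apply Finset.sum_congr rfl
        intro i _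
        by_cases hz : z ∈ cell δ i
        · simp [hz]
        · simp [hz]
      rw [h3]
      exact_mod_cast card_cell_le δ z t
    calc ∫ z in W, ∑ i ∈ t, (cell δ i).indicator (fun _ => (1:ℝ)) z ∂κ ≤ ∫ z in W, (9:ℝ) ∂κ := by
          apply integral_mono _ (integrable_const _) (fun z => h2 z)
          apply integrable_finsetSum
          intro i _
          exact (integrable_const (1:ℝ)).indicator (isClosed_cell δ i).measurableSet
      _ = 9 * (κ W).toReal := by
          rw [setIntegral_const]; simp [Measure.real, mul_comm]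
  · intro i _
    exact (integrable_const (1:ℝ)).indicator (isClosed_cell δ i).measurableSet

end Pool.Agent.Lib.Pdbc030
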