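import Mathlib
import Pool.Agent.Lib.Pdbc030.Cauchy

open MeasureTheory Filter Topology Complex
open scoped Real ComplexConjugate NNReal ENNReal

namespace Pool.Agent.Lib.Pdbc030

set_option linter.unusedSectionVars false

section Transform

variable {X : Set ℂ} (m : Measure X) (h : X → ℂ)

/-- Cauchy transform of `h m`. -/
noncomputable def CT (w : ℂ) : ℂ := ∫ z : X, h z / ((z : ℂ) - w) ∂m

variable [IsFiniteMeasure m] (hm : StronglyMeasurable h) (hi : Integrable h m)

include hm hi in
/-- absolute integrability on the product -/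
lemma integrable_prod_kernel {F : ℂ → ℂ} (hFm : Measurable F) {M R : ℝ} (hM : 0 ≤ M)
    (hF : ∀ w, ‖F w‖ ≤ M) (hF0 : ∀ w, R < ‖w‖ → F w = 0) :
    Integrable (fun p : ℂ × X => F p.1 * (h p.2 / ((p.2 : ℂ) - p.1))) (volume.prod m) := by
  have hmeas : AEStronglyMeasurable (fun p : ℂ × X => F p.1 * (h p.2 / ((p.2 : ℂ) - p.1)))
      (volume.prod m) := by
    apply Measurable.aestronglyMeasurable
    apply Measurable.mul (hFm.comp measurable_fst)
    apply Measurable.div (hm.measurable.comp measurable_snd)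
    exact (measurable_subtype_coe.comp measurable_snd).sub measurable_fst
  refine ⟨hmeas, ?_⟩
  rw [hasFiniteIntegral_iff_enorm]
  rw [lintegral_prod_symm' _ (by
    apply Measurable.enorm
    apply Measurable.mul (hFm.comp measurable_fst)
    apply Measurable.div (hm.measurable.comp measurable_snd)
    exact (measurable_subtype_coe.comp measurable_snd).sub measurable_fst)]
  have h1 : ∀ z : X, ∫⁻ w, ‖F w * (h z / ((z : ℂ) - w))‖ₑ ≤
      ‖h z‖ₑ * (ENNReal.ofReal (M * (2 * π)) +
        ENNReal.ofReal M * volume (Metric.closedBall (0:ℂ) R)) := by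
    intro z
    have h2 : ∀ w, ‖F w * (h z / ((z : ℂ) - w))‖ₑ =
        ‖h z‖ₑ * ENNReal.ofReal (‖F w‖ * ‖(z : ℂ) - w‖⁻¹) := by
      intro w
      rw [← ofReal_norm, ← ofReal_norm, ← ENNReal.ofReal_mul (norm_nonneg _), norm_mul, norm_div]
      congr 1
      ring
    simp_rw [h2]
    rw [lintegral_const_mul' _ _ (by simp)]
    gcongr
    exact lintegral_cauchy_le hM hF hF0 z
  refine lt_of_le_of_lt (lintegral_mono h1) ?_
  rw [lintegral_mul_const' _ _ (by
    apply ENNReal.add_ne_top.2
    exact ⟨ENNReal.ofReal_ne_top, ENNReal.mul_ne_top ENNReal.ofReal_ne_top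
      (isCompact_closedBall _ _).measure_lt_top.ne⟩)]
  apply ENNReal.mul_lt_top
  · exact hi.2
  · apply ENNReal.add_lt_top.2
    exact ⟨ENNReal.ofReal_lt_top, ENNReal.mul_lt_top ENNReal.ofReal_lt_top
      (isCompact_closedBall _ _).measure_lt_top⟩

include hm hi in
lemma integrable_mul_CT {F : ℂ → ℂ} (hFm : Measurable F) {M R : ℝ} (hM : 0 ≤ M)
    (hF : ∀ w, ‖F w‖ ≤ M) (hF0 : ∀ w, R < ‖w‖ → F w = 0) :
    Integrable (fun w => F w * CT m h w) := by
  have h1 := (integrable_prod_kernel m h hm hi hFm hM hF hF0).integral_prod_left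
  refine h1.congr (Eventually.of_forall (fun w => ?_))
  simp only [CT]
  rw [integral_const_mul]

include hm hi in
lemma fubini_CT {F : ℂ → ℂ} (hFm : Measurable F) {M R : ℝ} (hM : 0 ≤ M)
    (hF : ∀ w, ‖F w‖ ≤ M) (hF0 : ∀ w, R < ‖w‖ → F w = 0) :
    ∫ w, F w * CT m h w = ∫ z : X, h z * (∫ w, F w / ((z : ℂ) - w)) ∂m := by
  have h1 := integral_integral_swap (f := fun (w : ℂ) (z : X) => F w * (h z / ((z : ℂ) - w)))
    (integrable_prod_kernel m h hm hi hFm hM hF hF0)
  have h2 : ∀ w, F w * CT m h w = ∫ z : X, F w * (h z / ((z : ℂ) - w)) ∂m := by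
    intro w; rw [integral_const_mul]; rfl
  simp_rw [h2]
  rw [h1]
  congr 1
  funext z
  rw [← integral_const_mul]
  congr 1
  funext w
  ring

include hm hi in
lemma locallyIntegrable_CT (R : ℝ) : IntegrableOn (CT m h) (Metric.closedBall (0:ℂ) R) := by
  have h1 := integrable_mul_CT m h hm hi (F := (Metric.closedBall (0:ℂ) R).indicator (fun _ => 1))
    (measurable_const.indicator Metric.isClosed_closedBall.measurableSet) (M := 1) (R := R)
    zero_le_one (fun w => by
      by_cases hw : w ∈ Metric.closedBall (0:ℂ) R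
      · rw [Set.indicator_of_mem hw]; simp
      · rw [Set.indicator_of_notMem hw]; simp) (fun w hw => by
        rw [Set.indicator_of_notMem]
        simpa using hw)
  rw [← integrable_indicator_iff Metric.isClosed_closedBall.measurableSet]
  refine h1.congr (Eventually.of_forall (fun w => ?_))
  by_cases hw : w ∈ Metric.closedBall (0:ℂ) R
  · simp only [Set.indicator_of_mem hw, one_mul]
  · simp only [Set.indicator_of_notMem hw, zero_mul]

/-- The localised pairing. -/
noncomputable def T (g φ : ℂ → ℂ) : ℂ :=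
  (∫ z : X, g z * φ z * h z ∂m) - (π : ℂ)⁻¹ * ∫ w in X, g w * dbar φ w * CT m h w

lemma dbar_affine_mul (a b : ℂ) {φ : ℂ → ℂ} (hφ : ContDiff ℝ 1 φ) (w : ℂ) :
    dbar (fun z => (a + b * z) * φ z) w = (a + b * w) * dbar φ w := by
  have h1 : HasFDerivAt (fun z : ℂ => a + b * z) (b • (ContinuousLinearMap.id ℝ ℂ)) w := by
    have := ((hasFDerivAt_id (𝕜 := ℝ) w).const_mul b).const_add a
    simpa using this
  have h2 := ((hφ.differentiable (by norm_num)) w).hasFDerivAt
  have h3 := h1.mul h2
  have h4 : fderiv ℝ (fun z => (a + b * z) * φ z) w = _ := h3.fderiv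
  unfold dbar
  rw [h4]
  simp only [add_apply, smul_apply, smul_eq_mul, ContinuousLinearMap.id_apply]
  linear_combination ((1 / 2 : ℂ) * (b * φ w)) * I_sq

include hm hi in
/-- Affine functions have vanishing localised pairing. -/
lemma T_affine (hXm : MeasurableSet X) (hCT : ∀ w ∉ X, CT m h w = 0) (a b : ℂ) {φ : ℂ → ℂ}
    (hφ : ContDiff ℝ 1 φ) (hs : HasCompactSupport φ) : T m h (fun z => a + b * z) φ = 0 := by
  set ψ : ℂ → ℂ := fun z => (a + b * z) * φ z with hψ
  have hψc : ContDiff ℝ 1 ψ := by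
    rw [hψ]
    apply ContDiff.mul _ hφ
    fun_prop
  have hψs : HasCompactSupport ψ := hs.mul_left
  have hdc := continuous_dbar hψc
  have hds : HasCompactSupport (dbar ψ) := by
    apply hψs.mono'
    intro w hw
    by_contra hcon
    exact hw (dbar_eq_zero_of_notMem hcon)
  obtain ⟨M, hM⟩ := hdc.bounded_above_of_compact_support hds
  obtain ⟨R, hR⟩ := hds.isBounded.subset_closedBall 0
  have hF0 : ∀ w, R < ‖w‖ → dbar ψ w = 0 := by
    intro w hw
    apply image_eq_zero_of_notMem_tsupport
    intro hcon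
    have := hR hcon
    simp only [Metric.mem_closedBall, dist_zero_right] at this
    linarith
  have hM0 : 0 ≤ M := (norm_nonneg _).trans (hM 0)
  have hfub := fubini_CT m h hm hi hdc.measurable hM0 hM hF0
  have h5 : ∀ z : X, ∫ w, dbar ψ w / ((z : ℂ) - w) = π * ψ z := fun z => cauchy_pompeiu hψc hψs z
  simp_rw [h5] at hfub
  have h6 : ∫ w in X, (a + b * w) * dbar φ w * CT m h w = ∫ w, dbar ψ w * CT m h w := by
    rw [← integral_indicator hXm]
    congr 1
    funext w
    by_cases hw : w ∈ X
    · rw [Set.indicator_of_mem hw, hψ, dbar_affine_mul a b hφ]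
    · rw [Set.indicator_of_notMem hw, hCT w hw, mul_zero]
  rw [T, h6, hfub]
  have h7 : ∀ z : X, h z * (π * ψ z) = π * ((a + b * z) * φ z * h z) := by
    intro z; simp only [hψ]; ring
  simp_rw [h7]
  rw [integral_const_mul, ← mul_assoc, inv_mul_cancel₀ (by exact_mod_cast Real.pi_ne_zero),
    one_mul, sub_self]

/-! Bounds for `T`. -/

/-- total variation type measures on the plane -/
noncomputable def kap1 : Measure ℂ := (m.withDensity (fun z => ‖h z‖ₑ)).map Subtype.val

noncomputable def kap2 : Measure ℂ := (volume.restrict X).withDensity (fun w => ‖CT m h w‖ₑ)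

include hi in
lemma kap1_finite : IsFiniteMeasure (kap1 m h) := by
  constructor
  rw [kap1, Measure.map_apply measurable_subtype_coe MeasurableSet.univ, Set.preimage_univ,
    withDensity_apply _ MeasurableSet.univ, Measure.restrict_univ]
  exact hi.2

include hm hi in
lemma integrableOn_CT (hX : IsCompact X) : IntegrableOn (CT m h) X := by
  obtain ⟨R, hR⟩ := hX.isBounded.subset_closedBall 0
  exact (locallyIntegrable_CT m h hm hi R).mono_set hR

include hm hi in
lemma kap2_finite (hX : IsCompact X) : IsFiniteMeasure (kap2 m h) := by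
  constructor
  rw [kap2, withDensity_apply _ MeasurableSet.univ, Measure.restrict_univ]
  exact (integrableOn_CT m h hm hi hX).2

include hm hi in
lemma norm_T_le (hX : IsCompact X) {g φ : ℂ → ℂ} {Q : Set ℂ} (hQ : MeasurableSet Q)
    (hs : ∀ z ∉ Q, φ z = 0) (hs' : ∀ z ∉ Q, dbar φ z = 0)
    {s M0 M1 : ℝ} (hs0 : 0 ≤ s)
    (hgs : ∀ z ∈ X ∩ Q, ‖g z‖ ≤ s) (hM0' : ∀ z, ‖φ z‖ ≤ M0) (hM1' : ∀ z, ‖dbar φ z‖ ≤ M1) :
    ‖T m h g φ‖ ≤ s * (M0 * (kap1 m h Q).toReal + M1 * (kap2 m h Q).toReal) := by
  have hfin1 := kap1_finite m h hi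
  have hfin2 := kap2_finite m h hm hi hX
  have hXm : MeasurableSet X := hX.measurableSet
  -- first term
  have h1 : ‖∫ z : X, g z * φ z * h z ∂m‖ ≤ s * (M0 * (kap1 m h Q).toReal) := by
    have e1 : (kap1 m h Q).toReal = ∫ z in (Subtype.val ⁻¹' Q : Set X), ‖h z‖ ∂m := by
      rw [kap1, Measure.map_apply measurable_subtype_coe hQ,
        withDensity_apply _ (measurable_subtype_coe hQ), integral_norm_eq_lintegral_enorm]
      exact hm.aestronglyMeasurable
    rw [e1, ← integral_const_mul, ← integral_const_mul,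
      ← integral_indicator (measurable_subtype_coe hQ)]
    apply norm_integral_le_of_norm_le
    · apply Integrable.indicator _ (measurable_subtype_coe hQ)
      exact (hi.norm.const_mul M0).const_mul s
    · apply Eventually.of_forall
      intro z
      by_cases hz : (z : ℂ) ∈ Q
      · have hz' : z ∈ (Subtype.val ⁻¹' Q : Set X) := hz
        rw [Set.indicator_of_mem hz', norm_mul, norm_mul]
        have ha := hgs z ⟨z.2, hz⟩
        have hb := hM0' z
        rw [← mul_assoc]
        gcongr
      · have hz' : z ∉ (Subtype.val ⁻¹' Q : Set X) := hz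
        rw [Set.indicator_of_notMem hz', hs z hz]; simp
  -- second term
  have h2 : ‖(π : ℂ)⁻¹ * ∫ w in X, g w * dbar φ w * CT m h w‖ ≤
      s * (M1 * (kap2 m h Q).toReal) := by
    have e1 : (kap2 m h Q).toReal = ∫ w in Q, ‖CT m h w‖ ∂(volume.restrict X) := by
      rw [kap2, withDensity_apply _ hQ, integral_norm_eq_lintegral_enorm]
      exact (integrableOn_CT m h hm hi hX).1.restrict
    have h3 : ‖∫ w in X, g w * dbar φ w * CT m h w‖ ≤ s * (M1 * (kap2 m h Q).toReal) := by
      rw [e1, ← integral_const_mul, ← integral_const_mul, ← integral_indicator hQ]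
      apply norm_integral_le_of_norm_le
      · apply Integrable.indicator _ hQ
        exact (((integrableOn_CT m h hm hi hX).norm.const_mul M1)).const_mul s
      · filter_upwards [ae_restrict_mem hXm] with w hwX
        by_cases hz : w ∈ Q
        · rw [Set.indicator_of_mem hz, norm_mul, norm_mul]
          have ha := hgs w ⟨hwX, hz⟩
          have hb := hM1' w
          rw [← mul_assoc]
          gcongr
        · rw [Set.indicator_of_notMem hz, hs' w hz]; simp
    rw [norm_mul]
    have h4 : ‖(π : ℂ)⁻¹‖ ≤ 1 := by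
      rw [norm_inv, Complex.norm_real, Real.norm_eq_abs, abs_of_pos Real.pi_pos]
      apply inv_le_one_of_one_le₀
      linarith [Real.pi_gt_three]
    calc ‖(π : ℂ)⁻¹‖ * ‖∫ w in X, g w * dbar φ w * CT m h w‖ ≤
        1 * (s * (M1 * (kap2 m h Q).toReal)) := by
          apply mul_le_mul h4 h3 (norm_nonneg _) zero_le_one
      _ = _ := one_mul _
  calc ‖T m h g φ‖ ≤ _ := norm_sub_le _ _
    _ ≤ s * (M0 * (kap1 m h Q).toReal) + s * (M1 * (kap2 m h Q).toReal) := add_le_add h1 h2
    _ = _ := by ring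

end Transform

end Pool.Agent.Lib.Pdbc030
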