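import Mathlib
import Pool.Agent.Lib.Pdbc030.Transform
import Pool.Agent.Lib.Pdbc030.Grid

open MeasureTheory Filter Topology Complex
open scoped Real ComplexConjugate NNReal ENNReal

namespace Pool.Agent.Lib.Pdbc030

set_option linter.unusedSectionVars false

section Local

variable {X : Set ℂ} (m : Measure X) (h : X → ℂ)

variable [IsFiniteMeasure m] (hm : StronglyMeasurable h) (hi : Integrable h m)

include hi in
lemma integrable_one (hX : IsCompact X) {g φ : ℂ → ℂ} (hg : ContinuousOn g X)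
    (hφ : Continuous φ) : Integrable (fun z : X => g z * φ z * h z) m := by
  have hXc : CompactSpace X := isCompact_iff_compactSpace.1 hX
  have h1 : Continuous (fun z : X => g z * φ z) :=
    (continuousOn_iff_continuous_domRestrict.1 hg).mul (hφ.comp continuous_subtype_val)
  obtain ⟨C, hC⟩ := isCompact_univ.exists_bound_of_continuousOn h1.continuousOn
  exact hi.bdd_mul (c := C) h1.aestronglyMeasurable
    (Eventually.of_forall (fun z => hC z (Set.mem_univ z)))

include hm hi in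
lemma integrable_two (hX : IsCompact X) {g ψ : ℂ → ℂ} (hg : ContinuousOn g X)
    (hψ : Continuous ψ) : IntegrableOn (fun w => g w * ψ w * CT m h w) X := by
  have h1 : ContinuousOn (fun w => g w * ψ w) X := hg.mul hψ.continuousOn
  obtain ⟨C, hC⟩ := hX.exists_bound_of_continuousOn h1
  refine (integrableOn_CT m h hm hi hX).bdd_mul (c := C)
    (h1.aestronglyMeasurable hX.measurableSet) ?_
  filter_upwards [ae_restrict_mem hX.measurableSet] with w hw using hC w hw

lemma dbar_sum {ι : Type*} (s : Finset ι) (φ : ι → ℂ → ℂ) (hφ : ∀ i ∈ s, ContDiff ℝ 1 (φ i))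
    (w : ℂ) : dbar (fun z => ∑ i ∈ s, φ i z) w = ∑ i ∈ s, dbar (φ i) w := by
  unfold dbar
  have h1 : fderiv ℝ (fun z => ∑ i ∈ s, φ i z) w = ∑ i ∈ s, fderiv ℝ (φ i) w := by
    apply fderiv_fun_sum
    intro i hi
    exact ((hφ i hi).differentiable (by norm_num)) w
  rw [h1]
  simp only [FunLike.coe_sum, Finset.sum_apply]
  rw [Finset.mul_sum, ← Finset.sum_add_distrib, Finset.mul_sum]

include hm hi in
lemma T_sum (hX : IsCompact X) {g : ℂ → ℂ} (hg : ContinuousOn g X) {ι : Type*} (s : Finset ι)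
    (φ : ι → ℂ → ℂ) (hφ : ∀ i ∈ s, ContDiff ℝ 1 (φ i)) :
    T m h g (fun z => ∑ i ∈ s, φ i z) = ∑ i ∈ s, T m h g (φ i) := by
  unfold T
  rw [Finset.sum_sub_distrib]
  congr 1
  · rw [← integral_finsetSum]
    · congr 1
      funext z
      rw [Finset.mul_sum, Finset.sum_mul]
    · intro i his
      exact integrable_one m h hi hX hg (hφ i his).continuous
  · rw [← Finset.mul_sum, ← integral_finsetSum]
    · congr 2
      funext w
      rw [dbar_sum s φ hφ, Finset.mul_sum, Finset.sum_mul]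
    · intro i his
      exact integrable_two m h hm hi hX hg (continuous_dbar (hφ i his))

include hm hi in
lemma T_sub (hX : IsCompact X) {g1 g2 : ℂ → ℂ} (hg1 : ContinuousOn g1 X) (hg2 : ContinuousOn g2 X)
    {φ : ℂ → ℂ} (hφ : ContDiff ℝ 1 φ) :
    T m h (fun z => g1 z - g2 z) φ = T m h g1 φ - T m h g2 φ := by
  unfold T
  have e1 : ∫ z : X, (g1 z - g2 z) * φ z * h z ∂m =
      (∫ z : X, g1 z * φ z * h z ∂m) - ∫ z : X, g2 z * φ z * h z ∂m := by
    rw [← integral_sub (integrable_one m h hi hX hg1 hφ.continuous)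
      (integrable_one m h hi hX hg2 hφ.continuous)]
    congr 1; funext z; ring
  have e2 : ∫ w in X, (g1 w - g2 w) * dbar φ w * CT m h w =
      (∫ w in X, g1 w * dbar φ w * CT m h w) - ∫ w in X, g2 w * dbar φ w * CT m h w := by
    rw [← integral_sub (integrable_two m h hm hi hX hg1 (continuous_dbar hφ))
      (integrable_two m h hm hi hX hg2 (continuous_dbar hφ))]
    congr 1; funext z; ring
  rw [e1, e2]; ring

lemma T_congr {g φ φ' : ℂ → ℂ} (hφ : φ = φ') : T m h g φ = T m h g φ' := by rw [hφ]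

lemma T_zero {g φ : ℂ → ℂ} (hφ : ∀ z, φ z = 0) : T m h g φ = 0 := by
  have h0 : φ = fun _ => 0 := funext hφ
  have h1 : ∀ w, dbar φ w = 0 := by
    intro w
    rw [h0]
    simp [dbar]
  unfold T
  simp_rw [h1, hφ]
  simp

/-- all localised pairings supported in `U` vanish -/
def Null (f : ℂ → ℂ) (U : Set ℂ) : Prop :=
  ∀ φ : ℂ → ℂ, ContDiff ℝ 1 φ → HasCompactSupport φ → tsupport φ ⊆ U → T m h f φ = 0

lemma null_compl (f : ℂ → ℂ) (hXm : MeasurableSet X) : Null m h f Xᶜ := by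
  intro φ hφ hs ht
  have h1 : ∀ z ∈ X, z ∉ tsupport φ := fun z hz hz' => ht hz' hz
  unfold T
  have e1 : ∫ z : X, f z * φ z * h z ∂m = 0 := by
    have : ∀ z : X, f z * φ z * h z = 0 := by
      intro z
      rw [image_eq_zero_of_notMem_tsupport (h1 z z.2)]; ring
    simp_rw [this]; simp
  have e2 : ∫ w in X, f w * dbar φ w * CT m h w = 0 := by
    rw [setIntegral_congr_fun (g := fun _ => (0:ℂ)) hXm (fun w hw => ?_)]
    · simp
    · simp only
      rw [dbar_eq_zero_of_notMem (h1 w hw)]; ring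
  rw [e1, e2]; simp

/-- splitting over a grid -/
lemma exists_box {K : Set ℂ} (hK : Bornology.IsBounded K) {δ : ℝ} (hδ : 0 < δ) :
    ∃ N : ℕ, ∀ z ∈ K, |z.re / δ| ≤ N ∧ |z.im / δ| ≤ N := by
  obtain ⟨R, hR⟩ := hK.subset_closedBall 0
  obtain ⟨N, hN⟩ := exists_nat_ge (R / δ)
  refine ⟨N, fun z hz => ?_⟩
  have h1 : ‖z‖ ≤ R := by simpa using hR hz
  have h2 : ‖z‖ / δ ≤ N := le_trans (by gcongr) hN
  constructor
  · rw [abs_div, abs_of_pos hδ]
    exact le_trans (by gcongr; exact Complex.abs_re_le_norm z) h2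
  · rw [abs_div, abs_of_pos hδ]
    exact le_trans (by gcongr; exact Complex.abs_im_le_norm z) h2

lemma one_le_smooth : (1 : WithTop ℕ∞) ≤ ((⊤ : ℕ∞) : WithTop ℕ∞) := by
  change ((1 : ℕ∞) : WithTop ℕ∞) ≤ _
  exact WithTop.coe_le_coe.2 le_top

lemma contDiff_mul_psi {φ : ℂ → ℂ} (hφ : ContDiff ℝ 1 φ) (δ : ℝ) (i : ℤ × ℤ) :
    ContDiff ℝ 1 (fun z => φ z * psi δ i z) := hφ.mul (contDiff_psi one_le_smooth δ i)

lemma tsupport_mul_psi (φ : ℂ → ℂ) (δ : ℝ) (i : ℤ × ℤ) :
    tsupport (fun z => φ z * psi δ i z) ⊆ tsupport φ ∩ cell δ i := by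
  apply Set.subset_inter
  · apply closure_mono
    intro z hz
    rw [Function.mem_support] at hz ⊢
    intro h0
    exact hz (by rw [h0, zero_mul])
  · refine (closure_mono ?_).trans (tsupport_psi δ i)
    intro z hz
    rw [Function.mem_support] at hz ⊢
    intro h0
    exact hz (by rw [h0, mul_zero])

include hm hi in
lemma T_grid (hX : IsCompact X) {g : ℂ → ℂ} (hg : ContinuousOn g X) {φ : ℂ → ℂ}
    (hφ : ContDiff ℝ 1 φ) {δ : ℝ} {N : ℕ}
    (hN : ∀ z ∈ tsupport φ, |z.re / δ| ≤ N ∧ |z.im / δ| ≤ N) :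
    T m h g φ = ∑ i ∈ box N, T m h g (fun z => φ z * psi δ i z) := by
  rw [← T_sum m h hm hi hX hg (box N) (fun i z => φ z * psi δ i z)
    (fun i _ => contDiff_mul_psi hφ δ i)]
  apply T_congr
  funext z
  rw [← Finset.mul_sum]
  by_cases hz : z ∈ tsupport φ
  · rw [sum_psi_eq_one (hN z hz).1 (hN z hz).2, mul_one]
  · rw [image_eq_zero_of_notMem_tsupport hz, zero_mul]

include hm hi in
/-- Locality. -/
lemma T_local (hX : IsCompact X) {f : ℂ → ℂ} (hf : ContinuousOn f X) {φ : ℂ → ℂ}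
    (hφ : ContDiff ℝ 1 φ) (hs : HasCompactSupport φ)
    (hU : ∀ z ∈ tsupport φ, ∃ U : Set ℂ, IsOpen U ∧ z ∈ U ∧ Null m h f U) : T m h f φ = 0 := by
  choose! U hU1 hU2 hU3 using hU
  obtain ⟨δ, hδ, hδ'⟩ := lebesgue_number_lemma_of_metric (s := tsupport φ)
    (c := fun z : tsupport φ => U z) hs (fun z => hU1 z z.2)
    (fun z hz => Set.mem_iUnion.2 ⟨⟨z, hz⟩, hU2 z hz⟩)
  obtain ⟨N, hN⟩ := exists_box (K := tsupport φ) hs.isBounded (δ := δ / 5) (by positivity)
  rw [T_grid m h hm hi hX hf hφ hN]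
  apply Finset.sum_eq_zero
  intro i _
  by_cases hne : (tsupport φ ∩ cell (δ / 5) i).Nonempty
  · obtain ⟨x, hx, hx'⟩ := hne
    obtain ⟨z, hz⟩ := hδ' x hx
    apply hU3 z z.2 _ (contDiff_mul_psi hφ _ i) hs.mul_right
    refine (tsupport_mul_psi φ (δ / 5) i).trans ?_
    intro w hw
    apply hz
    rw [Metric.mem_ball, dist_eq_norm]
    have := dist_of_mem_cell (δ := δ / 5) (by positivity) hx' hw.2
    linarith
  · apply T_zero
    intro z
    by_cases hz : z ∈ tsupport φ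
    · by_cases hz' : z ∈ cell (δ / 5) i
      · exact absurd ⟨z, hz, hz'⟩ hne
      · rw [psi_eq_zero hz', mul_zero]
    · rw [image_eq_zero_of_notMem_tsupport hz, zero_mul]

end Local

end Pool.Agent.Lib.Pdbc030
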