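import Mathlib
import Pool.Agent.Lib.Pdbc030.Local

open MeasureTheory Filter Topology Complex
open scoped Real ComplexConjugate NNReal ENNReal

namespace Pool.Agent.Lib.Pdbc030

set_option linter.unusedSectionVars false

/-- Points of `F` at which `f` is `ε`-affine at scale `r` with slope bounded by `b`. -/
def affSet (X F : Set ℂ) (f : ℂ → ℂ) (b ε r : ℝ) : Set ℂ :=
  {z | z ∈ F ∧ ∃ a : ℂ, ‖a‖ ≤ b ∧ ∀ w ∈ X, ‖w - z‖ < r → ‖f w - f z - a * (w - z)‖ ≤ ε * ‖w - z‖}

lemma isClosed_affSet {X F : Set ℂ} (hF : IsCompact F) {f : ℂ → ℂ} (hf : ContinuousOn f F)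
    (b ε r : ℝ) : IsClosed (affSet X F f b ε r) := by
  set P : Set (ℂ × ℂ) := F ×ˢ Metric.closedBall (0:ℂ) b with hP
  have hPc : IsCompact P := hF.prod (isCompact_closedBall _ _)
  have hPcl : IsClosed P := hPc.isClosed
  set S : Set (ℂ × ℂ) := P ∩ ⋂ w ∈ X, ({p ∈ P | r ≤ ‖w - p.1‖} ∪
    {p ∈ P | ‖f w - f p.1 - p.2 * (w - p.1)‖ ≤ ε * ‖w - p.1‖}) with hS
  have hfP : ContinuousOn (fun p : ℂ × ℂ => f p.1) P :=
    hf.comp continuousOn_fst (fun p hp => hp.1)
  have hScl : IsClosed S := by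
    apply hPcl.inter
    apply isClosed_biInter
    intro w _
    apply IsClosed.union
    · apply hPcl.isClosed_le continuousOn_const
      exact (continuousOn_const.sub continuousOn_fst).norm
    · apply hPcl.isClosed_le
      · exact ((continuousOn_const.sub hfP).sub
          (continuousOn_snd.mul (continuousOn_const.sub continuousOn_fst))).norm
      · exact continuousOn_const.mul (continuousOn_const.sub continuousOn_fst).norm
  have hSc : IsCompact S := hPc.of_isClosed_subset hScl Set.inter_subset_left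
  have himg : affSet X F f b ε r = Prod.fst '' S := by
    ext z
    constructor
    · rintro ⟨hz, a, ha, haw⟩
      refine ⟨(z, a), ⟨⟨hz, by simpa using ha⟩, ?_⟩, rfl⟩
      rw [Set.mem_iInter₂]
      intro w hw
      by_cases hr : ‖w - z‖ < r
      · right
        exact ⟨⟨hz, by simpa using ha⟩, haw w hw hr⟩
      · left
        exact ⟨⟨hz, by simpa using ha⟩, not_lt.1 hr⟩
    · rintro ⟨⟨z', a⟩, ⟨hzP, hzI⟩, rfl⟩
      refine ⟨hzP.1, a, by simpa using hzP.2, fun w hw hr => ?_⟩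
      rw [Set.mem_iInter₂] at hzI
      rcases hzI w hw with h1 | h1
      · exact absurd h1.2 (not_le.2 hr)
      · exact h1.2
  rw [himg]
  exact (hSc.image continuous_fst).isClosed

/-- Points of `F` at which `f` is `n`-Lipschitz at scale `r`. -/
def lipSet (X F : Set ℂ) (f : ℂ → ℂ) (n r : ℝ) : Set ℂ :=
  {z | z ∈ F ∧ ∀ w ∈ X, ‖w - z‖ < r → ‖f w - f z‖ ≤ n * ‖w - z‖}

lemma isClosed_lipSet {X F : Set ℂ} (hF : IsClosed F) {f : ℂ → ℂ} (hf : ContinuousOn f F)
    (n r : ℝ) : IsClosed (lipSet X F f n r) := by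
  have himg : lipSet X F f n r = F ∩ ⋂ w ∈ X, ({z ∈ F | r ≤ ‖w - z‖} ∪
    {z ∈ F | ‖f w - f z‖ ≤ n * ‖w - z‖}) := by
    ext z
    constructor
    · rintro ⟨hz, haw⟩
      refine ⟨hz, ?_⟩
      rw [Set.mem_iInter₂]
      intro w hw
      by_cases hr : ‖w - z‖ < r
      · right
        exact ⟨hz, haw w hw hr⟩
      · left
        exact ⟨hz, not_lt.1 hr⟩
    · rintro ⟨hzP, hzI⟩
      refine ⟨hzP, fun w hw hr => ?_⟩
      rw [Set.mem_iInter₂] at hzI
      rcases hzI w hw with h1 | h1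
      · exact absurd h1.2 (not_le.2 hr)
      · exact h1.2
  rw [himg]
  apply hF.inter
  apply isClosed_biInter
  intro w _
  apply IsClosed.union
  · apply hF.isClosed_le continuousOn_const
    exact (continuousOn_const.sub continuousOn_id).norm
  · apply hF.isClosed_le
    · exact (continuousOn_const.sub hf).norm
    · exact continuousOn_const.mul (continuousOn_const.sub continuousOn_id).norm

lemma exists_lip {X : Set ℂ} {f : ℂ → ℂ} {z : ℂ} (hd : DifferentiableWithinAt ℂ f X z) :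
    ∃ n : ℕ, ∀ w ∈ X, ‖w - z‖ < 1 / ((n : ℝ) + 1) → ‖f w - f z‖ ≤ n * ‖w - z‖ := by
  have h1 := hd.hasFDerivWithinAt.isBigO_sub
  obtain ⟨c, hc⟩ := h1.bound
  rw [eventually_nhdsWithin_iff, Metric.eventually_nhds_iff] at hc
  obtain ⟨r, hr, hr'⟩ := hc
  obtain ⟨n1, hn1⟩ := exists_nat_one_div_lt hr
  obtain ⟨n2, hn2⟩ := exists_nat_ge c
  refine ⟨max n1 n2, fun w hw hwz => ?_⟩
  have h2 : dist w z < r := by
    rw [dist_eq_norm]
    refine hwz.trans_le (le_trans ?_ hn1.le)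
    apply one_div_le_one_div_of_le (by positivity)
    have : ((n1 : ℕ) : ℝ) ≤ ((max n1 n2 : ℕ) : ℝ) := by exact_mod_cast le_max_left _ _
    linarith
  refine (hr' h2 hw).trans ?_
  have h3 : c ≤ ((max n1 n2 : ℕ) : ℝ) := hn2.trans (by exact_mod_cast le_max_right _ _)
  gcongr

lemma exists_aff {X : Set ℂ} {f : ℂ → ℂ} {z : ℂ} (hd : DifferentiableWithinAt ℂ f X z)
    {n r ε : ℝ} (hn0 : 0 ≤ n) (hr : 0 < r) (hε : 0 < ε)
    (hn : ∀ w ∈ X, ‖w - z‖ < r → ‖f w - f z‖ ≤ n * ‖w - z‖) :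
    ∃ k : ℕ, ∃ a : ℂ, ‖a‖ ≤ n + ε ∧
      ∀ w ∈ X, ‖w - z‖ < 1 / ((k : ℝ) + 1) → ‖f w - f z - a * (w - z)‖ ≤ ε * ‖w - z‖ := by
  have h1 := hd.hasDerivWithinAt
  rw [hasDerivWithinAt_iff_isLittleO] at h1
  have h2 := h1.def hε
  rw [eventually_nhdsWithin_iff, Metric.eventually_nhds_iff] at h2
  obtain ⟨s, hs, hs'⟩ := h2
  obtain ⟨k, hk⟩ := exists_nat_one_div_lt (lt_min hr hs)
  set a := derivWithin f X z with ha
  have h3 : ∀ w ∈ X, ‖w - z‖ < 1 / ((k : ℝ) + 1) → ‖f w - f z - a * (w - z)‖ ≤ ε * ‖w - z‖ := by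
    intro w hw hwz
    have h4 := hs' (y := w) (by rw [dist_eq_norm]; exact hwz.trans (hk.trans_le (min_le_right _ _))) hw
    rw [smul_eq_mul, mul_comm] at h4
    exact h4
  by_cases hab : ‖a‖ ≤ n + ε
  · exact ⟨k, a, hab, h3⟩
  · refine ⟨k, 0, by simpa using by positivity, fun w hw hwz => ?_⟩
    push Not at hab
    have h4 := h3 w hw hwz
    have h5 := hn w hw (hwz.trans (hk.trans_le (min_le_left _ _)))
    have h6 : ‖a‖ * ‖w - z‖ ≤ (n + ε) * ‖w - z‖ := by
      rw [← norm_mul]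
      calc ‖a * (w - z)‖ = ‖(f w - f z) - (f w - f z - a * (w - z))‖ := by congr 1; ring
        _ ≤ ‖f w - f z‖ + ‖f w - f z - a * (w - z)‖ := norm_sub_le _ _
        _ ≤ n * ‖w - z‖ + ε * ‖w - z‖ := add_le_add h5 h4
        _ = (n + ε) * ‖w - z‖ := by ring
    have h7 : ‖w - z‖ = 0 := by
      by_contra hne
      have hpos : 0 < ‖w - z‖ := lt_of_le_of_ne (norm_nonneg _) (Ne.symm hne)
      have := le_of_mul_le_mul_right h6 hpos
      linarith
    have h8 : w = z := by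
      rw [norm_eq_zero, sub_eq_zero] at h7
      exact h7
    rw [h8]; simp

section Main

variable {X : Set ℂ} (m : Measure X) (h : X → ℂ)

variable [IsFiniteMeasure m] (hm : StronglyMeasurable h) (hi : Integrable h m)

include hm hi in
/-- The basic estimate on one cell. -/
lemma cell_est (hX : IsCompact X) (hCT : ∀ w ∉ X, CT m h w = 0) {f : ℂ → ℂ}
    (hf : ContinuousOn f X) {φ : ℂ → ℂ} (hφ : ContDiff ℝ 1 φ) (hs : HasCompactSupport φ)
    {C : ℝ} (hC : ∀ x, |deriv th x| ≤ C) {M0 M1 : ℝ} (hM0 : ∀ z, ‖φ z‖ ≤ M0)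
    (hM1 : ∀ z, ‖fderiv ℝ φ z‖ ≤ M1)
    {δ : ℝ} (hδ : 0 < δ) (i : ℤ × ℤ) {z a : ℂ} (hz : z ∈ cell δ i) {ε : ℝ} (hε : 0 ≤ ε)
    (ha : ∀ w ∈ X, ‖w - z‖ ≤ 4 * δ → ‖f w - f z - a * (w - z)‖ ≤ ε * ‖w - z‖) :
    ‖T m h f (fun z => φ z * psi δ i z)‖ ≤
      4 * ε * δ * (M0 * (kap1 m h (cell δ i)).toReal +
        (M1 + M0 * (2 * C / δ)) * (kap2 m h (cell δ i)).toReal) := by
  set g : ℂ → ℂ := fun w => f w - (((f z - a * z)) + a * w) with hg
  have hφi := contDiff_mul_psi hφ δ i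
  have hA : ContinuousOn (fun w : ℂ => (((f z - a * z)) + a * w)) X := by fun_prop
  have h1 : T m h f (fun z => φ z * psi δ i z) = T m h g (fun z => φ z * psi δ i z) := by
    rw [hg, T_sub m h hm hi hX hf hA hφi,
      T_affine m h hm hi hX.measurableSet hCT _ _ hφi hs.mul_right, sub_zero]
  rw [h1]
  have hC0 : 0 ≤ C := (abs_nonneg _).trans (hC 0)
  have hM00 : 0 ≤ M0 := (norm_nonneg _).trans (hM0 0)
  apply norm_T_le m h hm hi hX (isClosed_cell δ i).measurableSet
  · intro w hw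
    rw [psi_eq_zero hw, mul_zero]
  · intro w hw
    apply dbar_eq_zero_of_notMem
    intro hcon
    exact hw ((tsupport_mul_psi φ δ i) hcon).2
  · positivity
  · rintro w ⟨hwX, hw⟩
    have h2 := dist_of_mem_cell hδ hz hw
    have h3 := ha w hwX h2
    have h4 : g w = f w - f z - a * (w - z) := by rw [hg]; ring
    rw [h4]
    refine h3.trans ?_
    calc ε * ‖w - z‖ ≤ ε * (4 * δ) := by gcongr
      _ = 4 * ε * δ := by ring
  · intro w
    rw [norm_mul]
    calc ‖φ w‖ * ‖psi δ i w‖ ≤ M0 * 1 := by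
          gcongr
          · exact hM0 w
          · exact norm_psi_le δ i w
      _ = M0 := mul_one _
  · intro w
    refine (norm_dbar_le _ w).trans ?_
    have h5 : fderiv ℝ (fun z => φ z * psi δ i z) w =
        φ w • fderiv ℝ (psi δ i) w + psi δ i w • fderiv ℝ φ w := by
      apply fderiv_fun_mul
      · exact (hφ.differentiable (by norm_num)) w
      · exact ((contDiff_psi one_le_smooth δ i).differentiable (by norm_num)) w
    rw [h5]
    refine (norm_add_le _ _).trans ?_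
    rw [norm_smul, norm_smul]
    have h6 := norm_fderiv_psi_le hC hδ i w
    have h7 := norm_psi_le δ i w
    have h8 := hM0 w
    have h9 := hM1 w
    calc ‖φ w‖ * ‖fderiv ℝ (psi δ i) w‖ + ‖psi δ i w‖ * ‖fderiv ℝ φ w‖ ≤
        M0 * (2 * C / δ) + 1 * M1 := by gcongr
      _ = M1 + M0 * (2 * C / δ) := by ring

lemma affSet_mono {X F : Set ℂ} {f : ℂ → ℂ} {b ε r r' : ℝ} (hr : r' ≤ r) :
    affSet X F f b ε r ⊆ affSet X F f b ε r' := by
  rintro z ⟨hz, a, ha, haw⟩
  exact ⟨hz, a, ha, fun w hw hwz => haw w hw (hwz.trans_le hr)⟩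

include hm hi in
lemma est1 (hX : IsCompact X) (hCT : ∀ w ∉ X, CT m h w = 0) {f : ℂ → ℂ}
    (hf : ContinuousOn f X) {E : Set ℂ} (hEc : IsClosed E) (hEX : E ⊆ X)
    (hE : ∀ z ∉ E, ∃ U : Set ℂ, IsOpen U ∧ z ∈ U ∧ Null m h f U)
    {φ : ℂ → ℂ} (hφ : ContDiff ℝ 1 φ) (hs : HasCompactSupport φ)
    {C : ℝ} (hC : ∀ x, |deriv th x| ≤ C) {M0 M1 : ℝ} (hM0 : ∀ z, ‖φ z‖ ≤ M0)
    (hM1 : ∀ z, ‖fderiv ℝ φ z‖ ≤ M1)
    {n r : ℝ} (hn : 0 ≤ n)
    (hlip : ∀ z ∈ E ∩ tsupport φ, ∀ w ∈ X, ‖w - z‖ < r → ‖f w - f z‖ ≤ n * ‖w - z‖)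
    {ε s δ : ℝ} (hε : 0 < ε) (hδ : 0 < δ) (hδr : 4 * δ < r) (hδs : 4 * δ < s) :
    ‖T m h f φ‖ ≤ 36 * (ε * (δ * (M0 * (kap1 m h Set.univ).toReal + M1 * (kap2 m h Set.univ).toReal)
        + M0 * (2 * C) * (kap2 m h Set.univ).toReal) +
      n * (δ * (M0 * (kap1 m h Set.univ).toReal + M1 * (kap2 m h Set.univ).toReal) +
        M0 * (2 * C) * (kap2 m h (Metric.cthickening (4 * δ) (E ∩ tsupport φ) ∩
          (affSet X (E ∩ tsupport φ) f (n + ε) ε s)ᶜ)).toReal)) := by
  classical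
  have hfin1 := kap1_finite m h hi
  have hfin2 := kap2_finite m h hm hi hX
  have hC0 : 0 ≤ C := (abs_nonneg _).trans (hC 0)
  have hM00 : 0 ≤ M0 := (norm_nonneg _).trans (hM0 0)
  have hM10 : 0 ≤ M1 := (norm_nonneg _).trans (hM1 0)
  obtain ⟨N, hN⟩ := exists_box (K := tsupport φ) hs.isBounded hδ
  rw [T_grid m h hm hi hX hf hφ hN]
  set F := E ∩ tsupport φ with hF
  have hFc : IsCompact F := hs.inter_left hEc
  set Es := affSet X F f (n + ε) ε s with hEs
  have hEsc : IsClosed Es := isClosed_affSet hFc (hf.mono (fun z hz => hEX hz.1)) _ _ _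
  set W := Metric.cthickening (4 * δ) F ∩ Esᶜ with hW
  have hWm : MeasurableSet W :=
    Metric.isClosed_cthickening.measurableSet.inter hEsc.measurableSet.compl
  set q : ℤ × ℤ → ℝ := fun i => M0 * (kap1 m h (cell δ i)).toReal +
        (M1 + M0 * (2 * C / δ)) * (kap2 m h (cell δ i)).toReal with hq
  have hq0 : ∀ i, 0 ≤ q i := by
    intro i; rw [hq]; positivity
  set P : ℤ × ℤ → Prop := fun i => (cell δ i ∩ F).Nonempty ∧ cell δ i ∩ Es = ∅ with hP
  have hterm : ∀ i ∈ box N, ‖T m h f (fun z => φ z * psi δ i z)‖ ≤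
      4 * ε * δ * q i + (if P i then 4 * n * δ * q i else 0) := by
    intro i _
    by_cases h1 : (cell δ i ∩ F).Nonempty
    · by_cases h2 : (cell δ i ∩ Es).Nonempty
      · obtain ⟨z, hz, hzE⟩ := h2
        obtain ⟨hzF, a, ha, haw⟩ := hzE
        have h3 := cell_est m h hm hi hX hCT hf hφ hs hC hM0 hM1 hδ i hz hε.le
          (a := a) (fun w hw hwz => haw w hw (lt_of_le_of_lt hwz hδs))
        refine h3.trans ?_
        have h4 : (0:ℝ) ≤ (if P i then 4 * n * δ * q i else 0) := by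
          split_ifs
          · have := hq0 i; positivity
          · exact le_rfl
        simp only [hq] at h4 ⊢
        linarith
      · obtain ⟨z, hz, hzF⟩ := h1
        have hPi : P i := ⟨⟨z, hz, hzF⟩, Set.not_nonempty_iff_eq_empty.1 h2⟩
        have h3 := cell_est m h hm hi hX hCT hf hφ hs hC hM0 hM1 hδ i hz hn
          (a := 0) (fun w hw hwz => by
            rw [zero_mul, sub_zero]
            exact hlip z hzF w hw (lt_of_le_of_lt hwz hδr))
        rw [if_pos hPi]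
        refine h3.trans ?_
        have h4 : 0 ≤ 4 * ε * δ * q i := by have := hq0 i; positivity
        simp only [hq] at h4 ⊢
        linarith
    · have h3 : T m h f (fun z => φ z * psi δ i z) = 0 := by
        apply T_local m h hm hi hX hf (contDiff_mul_psi hφ _ i) hs.mul_right
        intro z hz
        have h4 := (tsupport_mul_psi φ δ i) hz
        apply hE z
        intro hzE
        exact h1 ⟨z, h4.2, hzE, h4.1⟩
      rw [h3, norm_zero]
      have h4 : (0:ℝ) ≤ (if P i then 4 * n * δ * q i else 0) := by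
        split_ifs
        · have := hq0 i; positivity
        · exact le_rfl
      have h5 : 0 ≤ 4 * ε * δ * q i := by have := hq0 i; positivity
      linarith
  refine (norm_sum_le _ _).trans ((Finset.sum_le_sum hterm).trans ?_)
  rw [Finset.sum_add_distrib, ← Finset.mul_sum, ← Finset.sum_filter, ← Finset.mul_sum]
  have hqsum : ∀ (t : Finset (ℤ × ℤ)) (V : Set ℂ), MeasurableSet V → (∀ i ∈ t, cell δ i ⊆ V) →
      ∑ i ∈ t, q i ≤ 9 * (M0 * (kap1 m h V).toReal +
        (M1 + M0 * (2 * C / δ)) * (kap2 m h V).toReal) := by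
    intro t V hV ht
    rw [hq, Finset.sum_add_distrib, ← Finset.mul_sum, ← Finset.mul_sum]
    have h1 := sum_measure_cell_le (kap1 m h) δ t hV ht
    have h2 := sum_measure_cell_le (kap2 m h) δ t hV ht
    have h3 : 0 ≤ M1 + M0 * (2 * C / δ) := by positivity
    calc _ ≤ M0 * (9 * (kap1 m h V).toReal) +
          (M1 + M0 * (2 * C / δ)) * (9 * (kap2 m h V).toReal) := by gcongr
      _ = _ := by ring
  have hs1 := hqsum (box N) Set.univ MeasurableSet.univ (fun i _ => Set.subset_univ _)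
  have hs2 := hqsum ((box N).filter P) W hWm (by
    intro i hi
    rw [Finset.mem_filter] at hi
    obtain ⟨⟨z, hz, hzF⟩, h2⟩ := hi.2
    intro w hw
    refine ⟨?_, ?_⟩
    · apply Metric.mem_cthickening_of_dist_le w z _ _ hzF
      rw [dist_eq_norm]
      exact dist_of_mem_cell hδ hz hw
    · intro hwE
      have : w ∈ cell δ i ∩ Es := ⟨hw, hwE⟩
      rw [h2] at this
      exact this)
  have hk1 : (kap1 m h W).toReal ≤ (kap1 m h Set.univ).toReal :=
    ENNReal.toReal_mono (measure_ne_top _ _) (measure_mono (Set.subset_univ _))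
  have hk2 : (kap2 m h W).toReal ≤ (kap2 m h Set.univ).toReal :=
    ENNReal.toReal_mono (measure_ne_top _ _) (measure_mono (Set.subset_univ _))
  set K1 := (kap1 m h Set.univ).toReal with hK1
  set K2 := (kap2 m h Set.univ).toReal with hK2
  set k1 := (kap1 m h W).toReal with hk1'
  set k2 := (kap2 m h W).toReal with hk2'
  have e1 : 4 * ε * δ * (9 * (M0 * K1 + (M1 + M0 * (2 * C / δ)) * K2)) =
      36 * (ε * (δ * (M0 * K1 + M1 * K2) + M0 * (2 * C) * K2)) := by
    field_simp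
    ring
  have e2 : 4 * n * δ * (9 * (M0 * k1 + (M1 + M0 * (2 * C / δ)) * k2)) =
      36 * (n * (δ * (M0 * k1 + M1 * k2) + M0 * (2 * C) * k2)) := by
    field_simp
    ring
  have f1 : 4 * ε * δ * ∑ i ∈ box N, q i ≤ 4 * ε * δ * (9 * (M0 * K1 + (M1 + M0 * (2 * C / δ)) * K2)) :=
    mul_le_mul_of_nonneg_left hs1 (by positivity)
  have f2 : 4 * n * δ * ∑ i ∈ (box N).filter P, q i ≤
      4 * n * δ * (9 * (M0 * k1 + (M1 + M0 * (2 * C / δ)) * k2)) :=
    mul_le_mul_of_nonneg_left hs2 (by positivity)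
  have f3 : 36 * (n * (δ * (M0 * k1 + M1 * k2) + M0 * (2 * C) * k2)) ≤
      36 * (n * (δ * (M0 * K1 + M1 * K2) + M0 * (2 * C) * k2)) := by gcongr
  linarith

include hm hi in
lemma T_eq_zero_of_lip (hX : IsCompact X) (hCT : ∀ w ∉ X, CT m h w = 0) {f : ℂ → ℂ}
    (hf : DifferentiableOn ℂ f X) {E : Set ℂ} (hEc : IsClosed E) (hEX : E ⊆ X)
    (hE : ∀ z ∉ E, ∃ U : Set ℂ, IsOpen U ∧ z ∈ U ∧ Null m h f U)
    {φ : ℂ → ℂ} (hφ : ContDiff ℝ 1 φ) (hs : HasCompactSupport φ)
    {n r : ℝ} (hn : 0 ≤ n) (hr : 0 < r)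
    (hlip : ∀ z ∈ E ∩ tsupport φ, ∀ w ∈ X, ‖w - z‖ < r → ‖f w - f z‖ ≤ n * ‖w - z‖) :
    T m h f φ = 0 := by
  have hfin1 := kap1_finite m h hi
  have hfin2 := kap2_finite m h hm hi hX
  have hfc : ContinuousOn f X := hf.continuousOn
  obtain ⟨C, hC0, hC⟩ := exists_deriv_bound
  obtain ⟨M0, hM0⟩ := hφ.continuous.bounded_above_of_compact_support hs
  obtain ⟨M1, hM1⟩ := (hφ.continuous_fderiv (by norm_num)).bounded_above_of_compact_support
    (hs.fderiv ℝ)
  have hM00 : 0 ≤ M0 := (norm_nonneg _).trans (hM0 0)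
  have hM10 : 0 ≤ M1 := (norm_nonneg _).trans (hM1 0)
  set F := E ∩ tsupport φ with hF
  have hFc : IsCompact F := hs.inter_left hEc
  set K1 := (kap1 m h Set.univ).toReal with hK1
  set K2 := (kap2 m h Set.univ).toReal with hK2
  -- the limit `δ → 0`
  have step2 : ∀ ε > 0, ∀ s > 0, ‖T m h f φ‖ ≤ 36 * (ε * (M0 * (2 * C) * K2) +
      n * (M0 * (2 * C) * (kap2 m h (F ∩ (affSet X F f (n + ε) ε s)ᶜ)).toReal)) := by
    intro ε hε s hs0
    set Es := affSet X F f (n + ε) ε s with hEs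
    have hEsc : IsClosed Es := isClosed_affSet hFc (hfc.mono (fun z hz => hEX hz.1)) _ _ _
    have h1 : Tendsto (fun δ : ℝ => (kap2 m h (Metric.cthickening (4 * δ) F ∩ Esᶜ)).toReal)
        (𝓝[>] 0) (𝓝 (kap2 m h (F ∩ Esᶜ)).toReal) := by
      have h2 := tendsto_measure_cthickening_of_isCompact (μ := (kap2 m h).restrict Esᶜ) hFc
      have h3 : Tendsto (fun δ : ℝ => 4 * δ) (𝓝[>] 0) (𝓝 0) := by
        have : Tendsto (fun δ : ℝ => 4 * δ) (𝓝 0) (𝓝 (4 * 0)) := tendsto_id.const_mul 4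
        rw [mul_zero] at this
        exact this.mono_left nhdsWithin_le_nhds
      have h4 := h2.comp h3
      rw [Measure.restrict_apply hFc.isClosed.measurableSet] at h4
      have h5 := (ENNReal.tendsto_toReal (measure_ne_top (kap2 m h) (F ∩ Esᶜ))).comp h4
      refine h5.congr (fun δ => ?_)
      simp only [Function.comp]
      rw [Measure.restrict_apply Metric.isClosed_cthickening.measurableSet]
    have h6 : Tendsto (fun δ : ℝ => 36 * (ε * (δ * (M0 * K1 + M1 * K2)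
        + M0 * (2 * C) * K2) + n * (δ * (M0 * K1 + M1 * K2) +
        M0 * (2 * C) * (kap2 m h (Metric.cthickening (4 * δ) F ∩ Esᶜ)).toReal))) (𝓝[>] 0)
        (𝓝 (36 * (ε * (0 * (M0 * K1 + M1 * K2) + M0 * (2 * C) * K2) +
          n * (0 * (M0 * K1 + M1 * K2) + M0 * (2 * C) * (kap2 m h (F ∩ Esᶜ)).toReal)))) := by
      have hid : Tendsto (fun δ : ℝ => δ) (𝓝[>] 0) (𝓝 0) := nhdsWithin_le_nhds
      exact ((((hid.mul_const _).add_const _).const_mul ε).add
        ((((hid.mul_const _).add (h1.const_mul _))).const_mul n)).const_mul 36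
    rw [zero_mul, zero_add, zero_add] at h6
    refine ge_of_tendsto h6 ?_
    have h7 : ∀ᶠ δ : ℝ in 𝓝[>] 0, δ < min (r / 4) (s / 4) := by
      apply Filter.Eventually.filter_mono nhdsWithin_le_nhds
      exact gt_mem_nhds (lt_min (by positivity) (by positivity))
    filter_upwards [h7, self_mem_nhdsWithin] with δ hδ hδ0
    have hδ0' : 0 < δ := hδ0
    have h8 := lt_min_iff.1 hδ
    exact est1 m h hm hi hX hCT hfc hEc hEX hE hφ hs hC hM0 hM1 hn hlip hε hδ0'
      (by linarith [h8.1]) (by linarith [h8.2])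
  -- the limit `s → 0`
  have step3 : ∀ ε > 0, ‖T m h f φ‖ ≤ 36 * (ε * (M0 * (2 * C) * K2)) := by
    intro ε hε
    set A : ℕ → Set ℂ := fun k => F ∩ (affSet X F f (n + ε) ε (1 / ((k : ℝ) + 1)))ᶜ with hA
    have h1 : Tendsto (kap2 m h ∘ A) atTop (𝓝 (kap2 m h (⋂ k, A k))) := by
      apply tendsto_measure_iInter_atTop
      · intro k
        exact (hFc.isClosed.measurableSet.inter (isClosed_affSet hFc
          (hfc.mono (fun z hz => hEX hz.1)) _ _ _).measurableSet.compl).nullMeasurableSet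
      · intro k l hkl
        apply Set.inter_subset_inter_right
        apply Set.compl_subset_compl.2
        apply affSet_mono
        apply one_div_le_one_div_of_le (by positivity)
        have : (k : ℝ) ≤ l := by exact_mod_cast hkl
        linarith
      · exact ⟨0, measure_ne_top _ _⟩
    have h2 : ⋂ k, A k = ∅ := by
      rw [Set.eq_empty_iff_forall_notMem]
      intro z hz
      rw [Set.mem_iInter] at hz
      have hzF : z ∈ F := (hz 0).1
      obtain ⟨k, a, ha, haw⟩ := exists_aff (hf z (hEX hzF.1)) hn hr hε (hlip z hzF)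
      exact (hz k).2 ⟨hzF, a, ha, haw⟩
    rw [h2, measure_empty] at h1
    have h3 : Tendsto (fun k => (kap2 m h (A k)).toReal) atTop (𝓝 0) := by
      have := (ENNReal.tendsto_toReal ENNReal.zero_ne_top).comp h1
      rw [ENNReal.toReal_zero] at this
      exact this
    have h4 : Tendsto (fun k => 36 * (ε * (M0 * (2 * C) * K2) +
        n * (M0 * (2 * C) * (kap2 m h (A k)).toReal))) atTop
        (𝓝 (36 * (ε * (M0 * (2 * C) * K2) + n * (M0 * (2 * C) * 0)))) :=
      (((h3.const_mul _).const_mul n).const_add _).const_mul 36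
    rw [mul_zero, mul_zero, add_zero] at h4
    exact ge_of_tendsto' h4 (fun k => step2 ε hε _ (by positivity))
  -- the limit `ε → 0`
  have step4 : ‖T m h f φ‖ ≤ 0 := by
    have h1 : Tendsto (fun ε : ℝ => 36 * (ε * (M0 * (2 * C) * K2))) (𝓝[>] 0)
        (𝓝 (36 * (0 * (M0 * (2 * C) * K2)))) := by
      have hid : Tendsto (fun δ : ℝ => δ) (𝓝[>] 0) (𝓝 0) := nhdsWithin_le_nhds
      exact (hid.mul_const _).const_mul 36
    rw [zero_mul, mul_zero] at h1
    refine ge_of_tendsto h1 ?_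
    filter_upwards [self_mem_nhdsWithin] with ε hε
    exact step3 ε hε
  exact norm_le_zero_iff.1 step4

include hm hi in
/-- All localised pairings of a differentiable function vanish. -/
theorem T_eq_zero (hX : IsCompact X) (hCT : ∀ w ∉ X, CT m h w = 0) {f : ℂ → ℂ}
    (hf : DifferentiableOn ℂ f X) {φ : ℂ → ℂ} (hφ : ContDiff ℝ 1 φ) (hs : HasCompactSupport φ) :
    T m h f φ = 0 := by
  set V : Set ℂ := ⋃₀ {U : Set ℂ | IsOpen U ∧ Null m h f U} with hV
  have hVo : IsOpen V := isOpen_sUnion (fun U hU => hU.1)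
  have hXV : Xᶜ ⊆ V := fun z hz =>
    Set.mem_sUnion.2 ⟨Xᶜ, ⟨hX.isClosed.isOpen_compl, null_compl m h f hX.measurableSet⟩, hz⟩
  set E : Set ℂ := Vᶜ with hE
  have hEc : IsClosed E := hVo.isClosed_compl
  have hEX : E ⊆ X := by
    intro z hz
    by_contra hcon
    exact hz (hXV hcon)
  have hE' : ∀ z ∉ E, ∃ U : Set ℂ, IsOpen U ∧ z ∈ U ∧ Null m h f U := by
    intro z hz
    rw [hE, Set.notMem_compl_iff, hV, Set.mem_sUnion] at hz
    obtain ⟨U, hU, hzU⟩ := hz
    exact ⟨U, hU.1, hzU, hU.2⟩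
  have hfc : ContinuousOn f X := hf.continuousOn
  have hEe : E = ∅ := by
    by_contra hne
    have hne' : E.Nonempty := Set.nonempty_iff_ne_empty.2 hne
    have : Nonempty E := hne'.to_subtype
    have : CompleteSpace E := hEc.completeSpace_coe
    have hb := nonempty_interior_of_iUnion_of_closed (X := E)
      (f := fun n : ℕ => (Subtype.val ⁻¹' (lipSet X E f n (1 / ((n : ℝ) + 1))) : Set E))
      (fun n => (isClosed_lipSet hEc (hfc.mono hEX) _ _).preimage continuous_subtype_val)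
      (by
        rw [Set.eq_univ_iff_forall]
        intro z
        rw [Set.mem_iUnion]
        obtain ⟨n, hn⟩ := exists_lip (hf z (hEX z.2))
        exact ⟨n, z.2, hn⟩)
    obtain ⟨n, z, hz⟩ := hb
    rw [mem_interior_iff_mem_nhds, mem_nhds_subtype_iff_nhdsWithin, mem_nhdsWithin] at hz
    obtain ⟨U, hU, hzU, hUE⟩ := hz
    apply z.2
    rw [hV, Set.mem_sUnion]
    refine ⟨U, ⟨hU, ?_⟩, hzU⟩
    intro φ hφ hs hsU
    apply T_eq_zero_of_lip m h hm hi hX hCT hf hEc hEX hE' hφ hs (n := n)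
      (r := 1 / ((n : ℝ) + 1)) (by positivity) (by positivity)
    rintro w ⟨hwE, hwφ⟩
    have h1 : w ∈ U ∩ E := ⟨hsU hwφ, hwE⟩
    obtain ⟨w', hw', hw''⟩ := hUE h1
    rw [← hw'']
    exact hw'.2
  apply T_local m h hm hi hX hfc hφ hs
  intro z _
  exact hE' z (by rw [hEe]; exact Set.notMem_empty z)

end Main

end Pool.Agent.Lib.Pdbc030
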