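import Mathlib
import Pool.Agent.Lib.Pdbc030.Main
import Pool.Agent.Lib.Pdbc030.Repr

open MeasureTheory Filter Topology Complex
open scoped Real ComplexConjugate NNReal ENNReal

namespace Pool.Agent.Lib.Pdbc030

/-- A cut-off function equal to one near `X`. -/
lemma exists_cutoff {X : Set ℂ} (hX : IsCompact X) : ∃ φ : ℂ → ℂ, ContDiff ℝ 1 φ ∧
    HasCompactSupport φ ∧ ∀ z ∈ X, φ z = 1 ∧ dbar φ z = 0 := by
  obtain ⟨R, hR⟩ := hX.isBounded.subset_ball 0
  set R' := max R 1 with hR'
  have hR'0 : 0 < R' := lt_of_lt_of_le one_pos (le_max_right _ _)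
  set b : ContDiffBump (0:ℂ) := ⟨R', R' + 1, hR'0, by linarith⟩ with hb
  refine ⟨fun z => ((b z : ℝ) : ℂ), ?_, ?_, ?_⟩
  · exact Complex.ofRealCLM.contDiff.comp (b.contDiff)
  · exact b.hasCompactSupport.comp_left (g := fun x : ℝ => (x : ℂ)) (by simp)
  · intro z hz
    have hzb : z ∈ Metric.ball (0:ℂ) R' := Metric.ball_subset_ball (le_max_left _ _) (hR hz)
    constructor
    · have : b z = 1 := b.one_of_mem_closedBall (Metric.ball_subset_closedBall hzb)
      simp [this]
    · have h1 : (fun z => ((b z : ℝ) : ℂ)) =ᶠ[𝓝 z] fun _ => 1 := by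
        filter_upwards [Metric.isOpen_ball.mem_nhds hzb] with w hw
        have : b w = 1 := b.one_of_mem_closedBall (Metric.ball_subset_closedBall hw)
        simp [this]
      unfold dbar
      rw [h1.fderiv_eq]
      simp

/-- The subspace of (restrictions of) rational functions without poles on `X`. -/
noncomputable def rat (X : Set ℂ) : Submodule ℂ C(X, ℂ) where
  carrier := {g | ∃ p q : Polynomial ℂ, (∀ z ∈ X, q.eval z ≠ 0) ∧
    ∀ z : X, g z = p.eval (z : ℂ) / q.eval (z : ℂ)}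
  zero_mem' := ⟨0, 1, by simp, by simp⟩
  add_mem' := by
    rintro g1 g2 ⟨p1, q1, hq1, hg1⟩ ⟨p2, q2, hq2, hg2⟩
    refine ⟨p1 * q2 + p2 * q1, q1 * q2, fun z hz => ?_, fun z => ?_⟩
    · rw [Polynomial.eval_mul]
      exact mul_ne_zero (hq1 z hz) (hq2 z hz)
    · have h1 := hq1 z z.2
      have h2 := hq2 z z.2
      rw [ContinuousMap.add_apply, hg1, hg2]
      simp only [Polynomial.eval_mul, Polynomial.eval_add]
      field_simp
  smul_mem' := by
    rintro c g ⟨p, q, hq, hg⟩
    refine ⟨Polynomial.C c * p, q, hq, fun z => ?_⟩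
    rw [ContinuousMap.smul_apply, hg]
    simp only [Polynomial.eval_mul, Polynomial.eval_C, smul_eq_mul]
    ring

theorem mem_closure_rat {X : Set ℂ} (hX : IsCompact X) {f : ℂ → ℂ} (hf : DifferentiableOn ℂ f X) :
    (⟨fun z : X => f z, continuousOn_iff_continuous_domRestrict.1 hf.continuousOn⟩ : C(X, ℂ)) ∈
      closure (rat X : Set C(X, ℂ)) := by
  have hXc : CompactSpace X := isCompact_iff_compactSpace.1 hX
  set F : C(X, ℂ) := ⟨fun z : X => f z, continuousOn_iff_continuous_domRestrict.1 hf.continuousOn⟩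
    with hF
  by_contra hcon
  have hconv : Convex ℝ (rat X : Set C(X, ℂ)) := ((rat X).restrictScalars ℝ).convex
  obtain ⟨L, u, hL1, hL2⟩ := RCLike.geometric_hahn_banach_closed_point (𝕜 := ℂ)
    (s := closure (rat X : Set C(X, ℂ))) (x := F) hconv.closure isClosed_closure hcon
  have hL0 : ∀ g ∈ rat X, L g = 0 := by
    intro g hg
    by_contra hne
    have hpos : 0 < ‖L g‖ ^ 2 := by positivity
    have hu : ∀ R : ℝ, R * ‖L g‖ ^ 2 < u := by
      intro R
      have h1 : ((R : ℂ) * (starRingEnd ℂ) (L g)) • g ∈ rat X := (rat X).smul_mem _ hg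
      have h2 := hL1 _ (subset_closure h1)
      rw [map_smul, smul_eq_mul, mul_assoc, mul_comm ((starRingEnd ℂ) (L g)) (L g),
        Complex.mul_conj, Complex.normSq_eq_norm_sq, ← Complex.ofReal_mul] at h2
      exact h2
    have := hu (u / ‖L g‖ ^ 2)
    rw [div_mul_cancel₀ _ hpos.ne'] at this
    exact lt_irrefl _ this
  have hu0 : 0 < u := by
    have := hL1 0 (subset_closure (rat X).zero_mem)
    simpa using this
  obtain ⟨m, h, hm1, hm2, hm3, hm4⟩ := exists_repr L
  have hCT : ∀ w ∉ X, CT m h w = 0 := by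
    intro w hw
    have hne : ∀ z : X, (z : ℂ) - w ≠ 0 := by
      intro z hz
      rw [sub_eq_zero] at hz
      exact hw (hz ▸ z.2)
    set k : C(X, ℂ) := ⟨fun z => 1 / ((z : ℂ) - w), by
      apply Continuous.div continuous_const _ hne
      exact continuous_subtype_val.sub continuous_const⟩ with hk
    have hkr : k ∈ rat X := by
      refine ⟨1, Polynomial.X - Polynomial.C w, fun z hz => ?_, fun z => ?_⟩
      · rw [Polynomial.eval_sub, Polynomial.eval_X, Polynomial.eval_C]
        exact hne ⟨z, hz⟩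
      · rw [Polynomial.eval_sub, Polynomial.eval_X, Polynomial.eval_C, Polynomial.eval_one]
        rfl
    have h1 := hm4 k
    rw [hL0 k hkr] at h1
    rw [CT, h1]
    congr 1
    funext z
    have : k z = 1 / ((z : ℂ) - w) := rfl
    rw [this]; ring
  obtain ⟨φ, hφ, hs, hφX⟩ := exists_cutoff hX
  have h2 := T_eq_zero m h hm2 hm3 hX hCT hf hφ hs
  have h3 : T m h f φ = L F := by
    rw [hm4 F, T]
    have e1 : ∫ z : X, f z * φ z * h z ∂m = ∫ z : X, F z * h z ∂m := by
      congr 1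
      funext z
      rw [(hφX z z.2).1, mul_one]; rfl
    have e2 : ∫ w in X, f w * dbar φ w * CT m h w = 0 := by
      rw [setIntegral_congr_fun (g := fun _ => (0:ℂ)) hX.measurableSet (fun w hw => ?_)]
      · simp
      · simp only
        rw [(hφX w hw).2]; ring
    rw [e1, e2, mul_zero, sub_zero]
  rw [h2] at h3
  rw [← h3] at hL2
  simp only [map_zero] at hL2
  linarith

theorem rational_approx {X : Set ℂ} (hX : IsCompact X) {f : ℂ → ℂ} (hf : DifferentiableOn ℂ f X)
    {ε : ℝ} (hε : 0 < ε) : ∃ p q : Polynomial ℂ, (∀ z ∈ X, q.eval z ≠ 0) ∧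
      ∀ z ∈ X, ‖f z - p.eval z / q.eval z‖ < ε := by
  have hXc : CompactSpace X := isCompact_iff_compactSpace.1 hX
  have h1 := mem_closure_rat hX hf
  rw [Metric.mem_closure_iff] at h1
  obtain ⟨g, ⟨p, q, hq, hg⟩, hd⟩ := h1 ε hε
  refine ⟨p, q, hq, fun z hz => ?_⟩
  have h2 := (ContinuousMap.dist_apply_le_dist (⟨z, hz⟩ : X)).trans_lt hd
  rw [dist_eq_norm, hg ⟨z, hz⟩] at h2
  exact h2

end Pool.Agent.Lib.Pdbc030
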